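import Mathlib

/-!
The combinatorial core of the block example.
-/

namespace Pool.Agent.Lib.MP_f9d380_an

open Finset

/-- `F l = (l+1)!`. -/
def Fq (l : ℕ) : ℕ := (l + 1).factorial

/-- The cut-off sizes. -/
def cut : ℕ → ℕ
  | 0 => 1
  | l + 1 => Fq (l + 1) * (2 * (l + 1) * cut l)

/-- The block sizes. -/
def Nq (l : ℕ) : ℕ := 2 * (l + 1) * cut l

/-- The weights. -/
noncomputable def wq : ℕ → ℝ
  | 0 => 1
  | l + 1 => 1 / (Nq l : ℝ)

lemma Fq_pos (l : ℕ) : 0 < Fq l := Nat.factorial_pos _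

lemma Fq_succ (l : ℕ) : Fq (l + 1) = (l + 2) * Fq l := Nat.factorial_succ _

lemma Fq_mono {l k : ℕ} (h : l ≤ k) : Fq l ≤ Fq k := Nat.factorial_le (by omega)

lemma cut_pos (l : ℕ) : 0 < cut l := by
  induction l with
  | zero => simp [cut]
  | succ l ih =>
    have := Fq_pos (l + 1)
    simp only [cut]
    positivity

lemma Nq_pos (l : ℕ) : 0 < Nq l := by
  have := cut_pos l
  unfold Nq
  positivity

lemma cut_succ (l : ℕ) : cut (l + 1) = Fq (l + 1) * Nq l := rfl

lemma cut_le_Nq (l : ℕ) : cut l ≤ Nq l := by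
  unfold Nq
  exact Nat.le_mul_of_pos_left _ (by omega)

lemma Nq_le_sq (l : ℕ) : Nq l ≤ cut (l + 1) := by
  rw [cut_succ]
  exact Nat.le_mul_of_pos_left _ (Fq_pos _)

lemma Nq_mono : Monotone Nq :=
  monotone_nat_of_le_succ fun l => (Nq_le_sq l).trans (cut_le_Nq _)

lemma Nq_le_sq_of_lt {k l : ℕ} (h : k < l) : Nq k ≤ cut l := by
  obtain ⟨l, rfl⟩ := Nat.exists_eq_succ_of_ne_zero (show l ≠ 0 by omega)
  exact (Nq_mono (by omega)).trans (Nq_le_sq l)

lemma wq_pos (l : ℕ) : 0 < wq l := by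
  cases l with
  | zero => simp [wq]
  | succ l =>
    have : (0 : ℝ) < Nq l := by exact_mod_cast Nq_pos l
    simp only [wq]
    positivity

lemma wq_mul_sq (l : ℕ) : wq l * cut l = Fq l := by
  cases l with
  | zero => simp [wq, cut, Fq]
  | succ l =>
    have : (0 : ℝ) < Nq l := by exact_mod_cast Nq_pos l
    rw [cut_succ]
    simp only [wq]
    push_cast
    field_simp

lemma wq_succ_le (l : ℕ) : wq (l + 1) ≤ wq l := by
  cases l with
  | zero =>
    have : (1 : ℝ) ≤ Nq 0 := by exact_mod_cast Nq_pos 0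
    simp only [wq]
    rw [div_le_one (by linarith)]
    exact this
  | succ l =>
    simp only [wq]
    have h1 : (0 : ℝ) < Nq l := by exact_mod_cast Nq_pos l
    have h2 : (Nq l : ℝ) ≤ Nq (l + 1) := by exact_mod_cast Nq_mono (Nat.le_succ l)
    exact one_div_le_one_div_of_le h1 h2

lemma wq_le_one (l : ℕ) : wq l ≤ 1 := by
  induction l with
  | zero => simp [wq]
  | succ l ih => exact (wq_succ_le l).trans ih

lemma wq_mul_Nq {k l : ℕ} (h : k < l) : wq l * Nq k ≤ 1 := by
  obtain ⟨l, rfl⟩ := Nat.exists_eq_succ_of_ne_zero (show l ≠ 0 by omega)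
  have h1 : (0 : ℝ) < Nq l := by exact_mod_cast Nq_pos l
  have h2 : (Nq k : ℝ) ≤ Nq l := by exact_mod_cast Nq_mono (show k ≤ l by omega)
  simp only [wq]
  rw [one_div_mul_eq_div, div_le_one h1]
  exact h2

/-- Admissible families of blocks. -/
structure Blocks (B : ℕ → Finset ℕ) : Prop where
  zero : B 0 = ∅
  disj : ∀ l l', l ≠ l' → Disjoint (B l) (B l')
  card : ∀ l, (B l).card ≤ Nq l

variable {𝕜 : Type} [RCLike 𝕜]

/-- The coefficient sequence `a` has norm at most `H`. -/
structure Bd (B : ℕ → Finset ℕ) (a : ℕ → 𝕜) (H : ℝ) : Prop where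
  lat : ∀ (l : ℕ) (T : Finset ℕ), Disjoint T (B l) → T.card ≤ cut l →
    wq l * ∑ n ∈ T, ‖a n‖ ≤ H
  blk : ∀ l, wq l * ‖∑ n ∈ B l, a n‖ ≤ H

variable {B : ℕ → Finset ℕ}

lemma Bd.nonneg {a : ℕ → 𝕜} {H : ℝ} (h : Bd B a H) : 0 ≤ H := by
  simpa using h.lat 0 ∅ (by simp) (by simp)

lemma Bd.flat {a : ℕ → 𝕜} {H t : ℝ} (h : Bd B a H) (l : ℕ) (T : Finset ℕ)
    (hT : Disjoint T (B l)) (ht : ∀ n ∈ T, t ≤ ‖a n‖) :
    wq l * ((min (cut l) T.card : ℕ) : ℝ) * t ≤ H := by
  obtain ⟨U, hU, hc⟩ := Finset.exists_subset_card_eq (Nat.min_le_right (cut l) T.card)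
  have e := h.lat l U (hT.mono_left hU) (by rw [hc]; exact Nat.min_le_left _ _)
  have e2 : (U.card : ℝ) * t ≤ ∑ n ∈ U, ‖a n‖ := by
    have := Finset.card_nsmul_le_sum U (fun n => ‖a n‖) t fun n hn => ht n (hU hn)
    simpa using this
  rw [← hc, mul_assoc]
  exact (mul_le_mul_of_nonneg_left e2 (wq_pos l).le).trans e

lemma Bd.chunk {a : ℕ → 𝕜} {H : ℝ} (h : Bd B a H) (l : ℕ) (U : Finset ℕ)
    (hU : Disjoint U (B l)) :
    (cut l : ℝ) * (wq l * ∑ n ∈ U, ‖a n‖) ≤ (U.card + cut l) * H := by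
  have hH := h.nonneg
  induction hn : U.card using Nat.strong_induction_on generalizing U with
  | _ c ih =>
    subst hn
    by_cases hc : U.card ≤ cut l
    · have := h.lat l U hU hc
      have h0 : (0 : ℝ) ≤ U.card := by positivity
      have h1 : (0 : ℝ) ≤ cut l := by positivity
      nlinarith
    · obtain ⟨T, hT, hTc⟩ := Finset.exists_subset_card_eq (show cut l ≤ U.card by omega)
      have e1 := h.lat l T (hU.mono_left hT) hTc.le
      have hcard : (U \ T).card + cut l = U.card := by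
        rw [← hTc]; exact Finset.card_sdiff_add_card_eq_card hT
      have hs := cut_pos l
      have e2 := ih (U \ T).card (by omega) (U \ T) (hU.mono_left Finset.sdiff_subset) rfl
      rw [← Finset.sum_sdiff hT, ← hcard]
      push_cast
      have h1 : (0 : ℝ) ≤ cut l := by positivity
      nlinarith

lemma eff_bound {k j : ℕ} (hj : j ≤ Nq k) (l : ℕ) :
    wq (l + 1) * ((min (cut (l + 1)) j : ℕ) : ℝ) ≤ (k + 1) * Fq l := by
  have hw := wq_pos (l + 1)
  have hF : (1 : ℝ) ≤ Fq l := by exact_mod_cast Fq_pos l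
  have hk : (0 : ℝ) ≤ k := by positivity
  rcases le_or_gt (l + 1) k with hl | hl
  · have e1 : ((min (cut (l + 1)) j : ℕ) : ℝ) ≤ cut (l + 1) := by
      exact_mod_cast Nat.min_le_left _ _
    have e2 : (l : ℝ) + 1 ≤ k := by exact_mod_cast hl
    calc _ ≤ wq (l + 1) * cut (l + 1) := by gcongr
      _ = (l + 2) * Fq l := by rw [wq_mul_sq, Fq_succ]; push_cast; ring
      _ ≤ _ := mul_le_mul_of_nonneg_right (by linarith) (by linarith)
  · have e1 : ((min (cut (l + 1)) j : ℕ) : ℝ) ≤ Nq k := by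
      exact_mod_cast (Nat.min_le_right _ _).trans hj
    calc _ ≤ wq (l + 1) * Nq k := by gcongr
      _ ≤ 1 := wq_mul_Nq hl
      _ ≤ _ := by nlinarith

lemma key_bound (hB : Blocks B) {h : ℕ → 𝕜} {H t : ℝ} (hh : Bd B h H) (ht0 : 0 ≤ t)
    {k : ℕ} (G : Finset ℕ) (hG : G.card ≤ Nq k) (ht : ∀ n ∈ G, t ≤ ‖h n‖) (l : ℕ) :
    wq l * ((min (cut l) G.card : ℕ) : ℝ) * t ≤ 2 * (k + 1) * H := by
  have hH := hh.nonneg
  have hk : (0 : ℝ) ≤ k := by positivity
  have hsplit := Finset.card_sdiff_add_card_inter G (B l)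
  by_cases hc : G.card ≤ 2 * (G \ B l).card
  · have e := hh.flat l (G \ B l) Finset.sdiff_disjoint fun n hn => ht n (Finset.sdiff_subset hn)
    have e2 : ((min (cut l) G.card : ℕ) : ℝ) ≤ 2 * ((min (cut l) (G \ B l).card : ℕ) : ℝ) := by
      exact_mod_cast (show min (cut l) G.card ≤ 2 * min (cut l) (G \ B l).card by omega)
    have hw := wq_pos l
    calc _ ≤ wq l * (2 * ((min (cut l) (G \ B l).card : ℕ) : ℝ)) * t := by gcongr
      _ = 2 * (wq l * ((min (cut l) (G \ B l).card : ℕ) : ℝ) * t) := by ring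
      _ ≤ 2 * H := by gcongr
      _ ≤ _ := by nlinarith
  · have hl : l ≠ 0 := by
      rintro rfl
      rw [hB.zero] at hc
      simp at hc
      omega
    obtain ⟨l, rfl⟩ := Nat.exists_eq_succ_of_ne_zero hl
    simp only [Nat.succ_eq_add_one] at *
    have e := hh.flat l (G ∩ B (l + 1))
      ((hB.disj (l + 1) l (by omega)).mono_left Finset.inter_subset_right)
      fun n hn => ht n (Finset.inter_subset_left hn)
    have hw := wq_pos l
    have hw' := wq_pos (l + 1)
    have e2 : wq (l + 1) * ((min (cut (l + 1)) G.card : ℕ) : ℝ) ≤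
        2 * (k + 1) * (wq l * ((min (cut l) (G ∩ B (l + 1)).card : ℕ) : ℝ)) := by
      rcases le_total (cut l) (G ∩ B (l + 1)).card with h1 | h1
      · rw [Nat.min_eq_left h1, wq_mul_sq]
        have := eff_bound hG l
        have hF : (0 : ℝ) ≤ Fq l := by positivity
        nlinarith
      · rw [Nat.min_eq_right h1]
        have e3 : ((min (cut (l + 1)) G.card : ℕ) : ℝ) ≤ 2 * ((G ∩ B (l + 1)).card : ℝ) := by
          exact_mod_cast (show min (cut (l + 1)) G.card ≤ 2 * (G ∩ B (l + 1)).card by omega)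
        have e4 := wq_succ_le l
        have h0 : (0 : ℝ) ≤ (G ∩ B (l + 1)).card := by positivity
        calc _ ≤ wq l * (2 * ((G ∩ B (l + 1)).card : ℝ)) := by gcongr
          _ = 2 * 1 * (wq l * ((G ∩ B (l + 1)).card : ℝ)) := by ring
          _ ≤ _ := by gcongr; linarith
    calc _ ≤ 2 * (k + 1) * (wq l * ((min (cut l) (G ∩ B (l + 1)).card : ℕ) : ℝ)) * t := by gcongr
      _ = 2 * (k + 1) * (wq l * ((min (cut l) (G ∩ B (l + 1)).card : ℕ) : ℝ) * t) := by ring
      _ ≤ _ := by gcongr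

open Classical in
/-- The corrected coefficient sequence. -/
noncomputable def corr (B : ℕ → Finset ℕ) (a h : ℕ → 𝕜) (G S : Finset ℕ) (n : ℕ) : 𝕜 :=
  if n ∈ G then
    if hb : ∃ l, n ∈ B l ∧ cut l < (G \ S).card then
      if (G \ S).card < 2 * ((G \ S) ∩ B hb.choose).card ∧ n ∉ S then
        -(∑ i ∈ B hb.choose \ G, a i) / (((G \ S) ∩ B hb.choose).card : 𝕜)
      else 0
    else h n
  else a n

lemma corr_off (a h : ℕ → 𝕜) (G S : Finset ℕ) {n : ℕ} (hn : n ∉ G) : corr B a h G S n = a n := by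
  simp [corr, hn]

lemma corr_small (hB : Blocks B) (a h : ℕ → 𝕜) (G S : Finset ℕ) {n l : ℕ} (hn : n ∈ G)
    (hl : n ∈ B l) (hs : (G \ S).card ≤ cut l) : corr B a h G S n = h n := by
  unfold corr
  rw [if_pos hn, dif_neg]
  rintro ⟨l', h1, h2⟩
  by_cases e : l = l'
  · subst e; omega
  · exact Finset.disjoint_left.1 (hB.disj l l' e) hl h1

lemma corr_big (hB : Blocks B) (a h : ℕ → 𝕜) (G S : Finset ℕ) {n l : ℕ} (hn : n ∈ G)
    (hl : n ∈ B l) (hs : cut l < (G \ S).card) : corr B a h G S n =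
      if (G \ S).card < 2 * ((G \ S) ∩ B l).card ∧ n ∉ S then
        -(∑ i ∈ B l \ G, a i) / (((G \ S) ∩ B l).card : 𝕜)
      else 0 := by
  have hb : ∃ l, n ∈ B l ∧ cut l < (G \ S).card := ⟨l, hl, hs⟩
  have e : hb.choose = l := by
    by_contra e
    exact Finset.disjoint_left.1 (hB.disj _ _ e) hb.choose_spec.1 hl
  unfold corr
  rw [if_pos hn, dif_pos hb, e]

lemma sum_norm_le_card_mul (a : ℕ → 𝕜) (T : Finset ℕ) {t : ℝ} (h : ∀ n ∈ T, ‖a n‖ ≤ t) :
    ∑ n ∈ T, ‖a n‖ ≤ T.card * t := by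
  have := Finset.sum_le_card_nsmul T (fun n => ‖a n‖) t h
  simpa using this

/-- The main estimate. -/
theorem cheb_core (hB : Blocks B) {a h : ℕ → 𝕜} {H : ℝ} (hh : Bd B h H) {k : ℕ}
    (G S : Finset ℕ) (hSG : S.card ≤ G.card) (hG : G.card ≤ Nq k)
    (hah : ∀ n ∉ S, a n = h n) (hgr : ∀ n ∈ G, ∀ i ∉ G, ‖a i‖ ≤ ‖a n‖) :
    ∃ z : ℕ → 𝕜, (∀ n ∉ G, z n = a n) ∧ Bd B z (6 * (k + 1) * H) := by
  have hH := hh.nonneg
  have hk : (0 : ℝ) ≤ k := by positivity
  have hS' : (S \ G).card ≤ (G \ S).card := Finset.card_sdiff_le_card_sdiff_iff.2 hSG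
  rcases (G \ S).eq_empty_or_nonempty with hE | hne
  · have hE' : S \ G = ∅ := by
      rw [hE] at hS'
      simpa using hS'
    refine ⟨h, fun n hn => (hah n fun hnS => ?_).symm, fun l T h1 h2 => ?_, fun l => ?_⟩
    · have : n ∈ S \ G := Finset.mem_sdiff.2 ⟨hnS, hn⟩
      rw [hE'] at this
      simp at this
    · nlinarith [hh.lat l T h1 h2]
    · nlinarith [hh.blk l]
  set t := (G \ S).inf' hne fun n => ‖a n‖ with ht
  have ht0 : 0 ≤ t := (Finset.le_inf'_iff _ _).2 fun n _ => norm_nonneg _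
  have htG : ∀ n ∈ G \ S, t ≤ ‖h n‖ := fun n hn => by
    rw [← hah n (Finset.mem_sdiff.1 hn).2]
    exact Finset.inf'_le (fun n => ‖a n‖) hn
  have htoff : ∀ i ∉ G, ‖a i‖ ≤ t := fun i hi =>
    (Finset.le_inf'_iff _ _).2 fun n hn => hgr n (Finset.mem_sdiff.1 hn).1 i hi
  have hj : (G \ S).card ≤ Nq k := (Finset.card_le_card Finset.sdiff_subset).trans hG
  have key := key_bound hB hh ht0 (G \ S) hj htG
  have big_le : ∀ l, cut l < (G \ S).card → l ≤ k := fun l hl => by
    by_contra hlk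
    have := Nq_le_sq_of_lt (show k < l by omega)
    omega
  have rest : ∀ l, ‖∑ i ∈ B l \ G, a i‖ ≤ Nq l * t := fun l => by
    refine (norm_sum_le _ _).trans ((sum_norm_le_card_mul a _ fun i hi =>
      htoff i (Finset.mem_sdiff.1 hi).2).trans ?_)
    have : ((B l \ G).card : ℝ) ≤ Nq l := by
      exact_mod_cast (Finset.card_le_card Finset.sdiff_subset).trans (hB.card l)
    gcongr
  set z := corr B a h G S with hz
  have dom : ∀ n, n ∉ S \ G → ‖z n‖ ≤ 4 * (k + 1) * ‖h n‖ := by
    intro n hn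
    have h0 := norm_nonneg (h n)
    by_cases hnG : n ∈ G
    · by_cases hb : ∃ l, n ∈ B l ∧ cut l < (G \ S).card
      · obtain ⟨l, hl, hs⟩ := hb
        rw [hz, corr_big hB a h G S hnG hl hs]
        split_ifs with hc
        · obtain ⟨hc, hnS⟩ := hc
          have hpos : (0 : ℝ) < ((G \ S) ∩ B l).card := by
            exact_mod_cast (show 0 < ((G \ S) ∩ B l).card by omega)
          rw [norm_div, norm_neg, RCLike.norm_natCast, div_le_iff₀ hpos]
          have e1 : (Nq l : ℝ) ≤ 4 * (k + 1) * ((G \ S) ∩ B l).card := by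
            have := big_le l hs
            have e : Nq l ≤ 4 * (k + 1) * ((G \ S) ∩ B l).card := by
              unfold Nq
              calc 2 * (l + 1) * cut l ≤ 2 * (k + 1) * (2 * ((G \ S) ∩ B l).card) := by
                    gcongr
                    omega
                _ = _ := by ring
            exact_mod_cast e
          have e2 := htG n (Finset.mem_sdiff.2 ⟨hnG, hnS⟩)
          calc _ ≤ Nq l * t := rest l
            _ ≤ (4 * (k + 1) * ((G \ S) ∩ B l).card) * ‖h n‖ := by gcongr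
            _ = _ := by ring
        · rw [norm_zero]; positivity
      · have : z n = h n := by
          rw [hz]; unfold corr
          rw [if_pos hnG, dif_neg hb]
        rw [this]; nlinarith
    · have hnS : n ∉ S := fun hnS => hn (Finset.mem_sdiff.2 ⟨hnS, hnG⟩)
      rw [hz, corr_off a h G S hnG, hah n hnS]
      nlinarith
  refine ⟨z, fun n hn => corr_off a h G S hn, fun l T hT hTc => ?_, fun l => ?_⟩
  · -- lattice functionals
    have hw := wq_pos l
    have e1 : ∑ n ∈ T \ (S \ G), ‖z n‖ ≤ 4 * (k + 1) * ∑ n ∈ T, ‖h n‖ := by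
      rw [Finset.mul_sum]
      refine (Finset.sum_le_sum fun n hn => dom n (Finset.mem_sdiff.1 hn).2).trans ?_
      exact Finset.sum_le_sum_of_subset_of_nonneg Finset.sdiff_subset fun n _ _ => by positivity
    have e2 : ∑ n ∈ T ∩ (S \ G), ‖z n‖ ≤ ((min (cut l) (G \ S).card : ℕ) : ℝ) * t := by
      refine (sum_norm_le_card_mul z _ (t := t) fun n hn => ?_).trans ?_
      · have hnG := (Finset.mem_sdiff.1 (Finset.mem_inter.1 hn).2).2
        rw [hz, corr_off a h G S hnG]
        exact htoff n hnG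
      · have : (T ∩ (S \ G)).card ≤ min (cut l) (G \ S).card :=
          le_min ((Finset.card_le_card Finset.inter_subset_left).trans hTc)
            ((Finset.card_le_card Finset.inter_subset_right).trans hS')
        have : ((T ∩ (S \ G)).card : ℝ) ≤ ((min (cut l) (G \ S).card : ℕ) : ℝ) := by
          exact_mod_cast this
        gcongr
    have e3 := hh.lat l T hT hTc
    rw [← Finset.sum_inter_add_sum_sdiff T (S \ G)]
    calc _ ≤ wq l * (((min (cut l) (G \ S).card : ℕ) : ℝ) * t +
          4 * (k + 1) * ∑ n ∈ T, ‖h n‖) := by gcongr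
      _ = wq l * ((min (cut l) (G \ S).card : ℕ) : ℝ) * t +
          4 * (k + 1) * (wq l * ∑ n ∈ T, ‖h n‖) := by ring
      _ ≤ 2 * (k + 1) * H + 4 * (k + 1) * H :=
          add_le_add (key l) (mul_le_mul_of_nonneg_left e3 (by positivity))
      _ = _ := by ring
  · -- block functionals
    have hw := wq_pos l
    rcases le_or_gt (G \ S).card (cut l) with hs | hs
    · -- small levels
      cases l with
      | zero => rw [hB.zero]; simp; positivity
      | succ l =>
        set U := B (l + 1) ∩ (S \ G) with hU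
        have hUc : U.card ≤ (G \ S).card :=
          (Finset.card_le_card Finset.inter_subset_right).trans hS'
        have hUc' : (U.card : ℝ) ≤ (G \ S).card := by exact_mod_cast hUc
        have e0 : ∑ n ∈ B (l + 1), z n =
            ∑ n ∈ B (l + 1), h n + (∑ n ∈ U, a n - ∑ n ∈ U, h n) := by
          rw [← Finset.sum_inter_add_sum_sdiff (B (l + 1)) (S \ G) z,
            ← Finset.sum_inter_add_sum_sdiff (B (l + 1)) (S \ G) h]
          have f1 : ∑ n ∈ B (l + 1) ∩ (S \ G), z n = ∑ n ∈ U, a n :=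
            Finset.sum_congr rfl fun n hn =>
              corr_off a h G S (Finset.mem_sdiff.1 (Finset.mem_inter.1 hn).2).2
          have f2 : ∑ n ∈ B (l + 1) \ (S \ G), z n = ∑ n ∈ B (l + 1) \ (S \ G), h n := by
            refine Finset.sum_congr rfl fun n hn => ?_
            obtain ⟨h1, h2⟩ := Finset.mem_sdiff.1 hn
            by_cases hnG : n ∈ G
            · exact corr_small hB a h G S hnG h1 hs
            · rw [hz, corr_off a h G S hnG]
              exact hah n fun hnS => h2 (Finset.mem_sdiff.2 ⟨hnS, hnG⟩)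
          rw [f1, f2]
          ring
        have e1 := hh.blk (l + 1)
        have e2 : wq (l + 1) * ‖∑ n ∈ U, a n‖ ≤ 2 * (k + 1) * H := by
          have f1 : ‖∑ n ∈ U, a n‖ ≤ (G \ S).card * t := by
            refine (norm_sum_le _ _).trans ((sum_norm_le_card_mul a U fun n hn =>
              htoff n (Finset.mem_sdiff.1 (Finset.mem_inter.1 hn).2).2).trans ?_)
            gcongr
          have f2 := key (l + 1)
          rw [Nat.min_eq_right hs] at f2
          calc _ ≤ wq (l + 1) * ((G \ S).card * t) := by gcongr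
            _ = wq (l + 1) * (G \ S).card * t := by ring
            _ ≤ _ := f2
        have e3 : wq (l + 1) * ‖∑ n ∈ U, h n‖ ≤ (k + 2) * H := by
          have f1 := hh.chunk l U ((hB.disj (l + 1) l (by omega)).mono_left
            Finset.inter_subset_left)
          have f2 := eff_bound hj l
          rw [Nat.min_eq_right hs] at f2
          have hF : (0 : ℝ) < Fq l := by exact_mod_cast Fq_pos l
          have f3 : wq (l + 1) * cut l ≤ Fq l := by
            rw [← wq_mul_sq]
            have := wq_succ_le l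
            gcongr
          have f4 : (Fq l : ℝ) * ∑ n ∈ U, ‖h n‖ ≤ (U.card + cut l) * H := by
            rw [← wq_mul_sq]; linarith
          refine le_of_mul_le_mul_left ?_ hF
          calc (Fq l : ℝ) * (wq (l + 1) * ‖∑ n ∈ U, h n‖)
              ≤ Fq l * (wq (l + 1) * ∑ n ∈ U, ‖h n‖) := by
                gcongr
                exact norm_sum_le _ _
            _ = wq (l + 1) * (Fq l * ∑ n ∈ U, ‖h n‖) := by ring
            _ ≤ wq (l + 1) * (((G \ S).card + cut l) * H) := by
                refine mul_le_mul_of_nonneg_left (f4.trans ?_) hw.le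
                gcongr
            _ = (wq (l + 1) * (G \ S).card + wq (l + 1) * cut l) * H := by ring
            _ ≤ ((k + 1) * Fq l + Fq l) * H := by gcongr
            _ = _ := by ring
        rw [e0]
        have e4 : ‖∑ n ∈ B (l + 1), h n + (∑ n ∈ U, a n - ∑ n ∈ U, h n)‖ ≤
            ‖∑ n ∈ B (l + 1), h n‖ + (‖∑ n ∈ U, a n‖ + ‖∑ n ∈ U, h n‖) :=
          (norm_add_le _ _).trans (by gcongr; exact norm_sub_le _ _)
        calc _ ≤ wq (l + 1) * (‖∑ n ∈ B (l + 1), h n‖ + (‖∑ n ∈ U, a n‖ + ‖∑ n ∈ U, h n‖)) := by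
              gcongr
          _ ≤ _ := by nlinarith
    · -- big levels
      have e0 : ∑ n ∈ B l, z n = ∑ n ∈ B l ∩ G, z n + ∑ n ∈ B l \ G, a n := by
        rw [← Finset.sum_inter_add_sum_sdiff (B l) G z]
        congr 1
        exact Finset.sum_congr rfl fun n hn => corr_off a h G S (Finset.mem_sdiff.1 hn).2
      rw [e0]
      by_cases hc : (G \ S).card < 2 * ((G \ S) ∩ B l).card
      · have e1 : ∑ n ∈ B l ∩ G, z n = -∑ n ∈ B l \ G, a n := by
          have f1 : ∑ n ∈ B l ∩ G, z n = ∑ n ∈ (B l ∩ G).filter (fun n => n ∉ S),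
              -(∑ i ∈ B l \ G, a i) / (((G \ S) ∩ B l).card : 𝕜) := by
            rw [Finset.sum_filter]
            refine Finset.sum_congr rfl fun n hn => ?_
            obtain ⟨h1, h2⟩ := Finset.mem_inter.1 hn
            rw [hz, corr_big hB a h G S h2 h1 hs]
            simp [hc]
          have f2 : (B l ∩ G).filter (fun n => n ∉ S) = (G \ S) ∩ B l := by
            ext n
            simp only [Finset.mem_filter, Finset.mem_inter, Finset.mem_sdiff]
            tauto
          have f3 : (((G \ S) ∩ B l).card : 𝕜) ≠ 0 := by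
            exact_mod_cast (show ((G \ S) ∩ B l).card ≠ 0 by omega)
          rw [f1, f2, Finset.sum_const, nsmul_eq_mul]
          field_simp
        rw [e1, neg_add_cancel, norm_zero, mul_zero]
        positivity
      · have e1 : ∑ n ∈ B l ∩ G, z n = 0 := by
          refine Finset.sum_eq_zero fun n hn => ?_
          obtain ⟨h1, h2⟩ := Finset.mem_inter.1 hn
          rw [hz, corr_big hB a h G S h2 h1 hs]
          simp [hc]
        rw [e1, zero_add]
        have f1 := hh.flat l ((G \ S) \ B l) Finset.sdiff_disjoint fun n hn =>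
          htG n (Finset.sdiff_subset hn)
        have hsplit := Finset.card_sdiff_add_card_inter (G \ S) (B l)
        have f2 : (cut l : ℝ) ≤ 2 * ((min (cut l) ((G \ S) \ B l).card : ℕ) : ℝ) := by
          exact_mod_cast (show cut l ≤ 2 * min (cut l) ((G \ S) \ B l).card by omega)
        have f3 : (l : ℝ) ≤ k := by exact_mod_cast big_le l hs
        have f4 : (Nq l : ℝ) = 2 * (l + 1) * cut l := by unfold Nq; push_cast; ring
        calc _ ≤ wq l * (Nq l * t) := by gcongr; exact rest l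
          _ = 2 * (l + 1) * (wq l * cut l * t) := by rw [f4]; ring
          _ ≤ 2 * (k + 1) * (wq l * (2 * ((min (cut l) ((G \ S) \ B l).card : ℕ) : ℝ)) * t) := by
              gcongr
          _ = 4 * (k + 1) * (wq l * ((min (cut l) ((G \ S) \ B l).card : ℕ) : ℝ) * t) := by ring
          _ ≤ 4 * (k + 1) * H := by gcongr
          _ ≤ _ := by nlinarith

/-- The balanced vector on a full block is short. -/
theorem balanced_bd (hB : Blocks B) {k : ℕ} (P : Finset ℕ) (hP : P ⊆ B (k + 1))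
    (hc : (B (k + 1) \ P).card = P.card) :
    Bd B (fun n => if n ∈ B (k + 1) then (if n ∈ P then (1 : 𝕜) else -1) else 0) (Fq k) := by
  have hF : (1 : ℝ) ≤ Fq k := by exact_mod_cast Fq_pos k
  refine ⟨fun l T hT hTc => ?_, fun l => ?_⟩
  · have hw := wq_pos l
    have e : ∑ n ∈ T, ‖if n ∈ B (k + 1) then (if n ∈ P then (1 : 𝕜) else -1) else 0‖ =
        (T ∩ B (k + 1)).card := by
      have : ∀ n ∈ T, ‖if n ∈ B (k + 1) then (if n ∈ P then (1 : 𝕜) else -1) else 0‖ =
          if n ∈ B (k + 1) then (1 : ℝ) else 0 := by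
        intro n _
        split_ifs <;> simp
      rw [Finset.sum_congr rfl this, Finset.sum_ite_mem]
      simp
    rw [e]
    rcases lt_trichotomy l (k + 1) with hl | rfl | hl
    · have f1 : ((T ∩ B (k + 1)).card : ℝ) ≤ cut l := by
        exact_mod_cast (Finset.card_le_card Finset.inter_subset_left).trans hTc
      have f2 : (Fq l : ℝ) ≤ Fq k := by exact_mod_cast Fq_mono (show l ≤ k by omega)
      calc _ ≤ wq l * cut l := by gcongr
        _ ≤ _ := by rw [wq_mul_sq]; exact f2
    · rw [Finset.disjoint_iff_inter_eq_empty.1 hT]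
      simp
    · have f1 : ((T ∩ B (k + 1)).card : ℝ) ≤ Nq (k + 1) := by
        exact_mod_cast (Finset.card_le_card Finset.inter_subset_right).trans (hB.card _)
      calc _ ≤ wq l * Nq (k + 1) := by gcongr
        _ ≤ _ := (wq_mul_Nq hl).trans hF
  · have e : ∑ n ∈ B l, (if n ∈ B (k + 1) then (if n ∈ P then (1 : 𝕜) else -1) else 0) = 0 := by
      by_cases hl : l = k + 1
      · subst hl
        rw [← Finset.sum_sdiff hP]
        have f1 : ∑ n ∈ B (k + 1) \ P,
            (if n ∈ B (k + 1) then (if n ∈ P then (1 : 𝕜) else -1) else 0) =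
            ∑ n ∈ B (k + 1) \ P, -1 := Finset.sum_congr rfl fun n hn => by
          obtain ⟨h1, h2⟩ := Finset.mem_sdiff.1 hn
          simp [h1, h2]
        have f2 : ∑ n ∈ P, (if n ∈ B (k + 1) then (if n ∈ P then (1 : 𝕜) else -1) else 0) =
            ∑ n ∈ P, 1 := Finset.sum_congr rfl fun n hn => by simp [hn, hP hn]
        rw [f1, f2]
        simp [hc]
      · exact Finset.sum_eq_zero fun n hn =>
          if_neg (Finset.disjoint_left.1 (hB.disj l (k + 1) hl) hn)
    rw [e]
    simp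

end Pool.Agent.Lib.MP_f9d380_an
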