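import Mathlib

/-!
Greedy-type parameters of bases of `p`-Banach spaces (definitions only).
The space is a vector space `X` over `𝕜` (the reals or the complex numbers) with a `p`-norm `N`;
`x n` are the basis vectors and `xs n` the dual functionals.
-/

namespace Pool.Agent.Lib.MP_f9d380_an

open scoped NNReal ENNReal

universe u

variable {𝕜 : Type} [RCLike 𝕜] {X : Type u} [AddCommGroup X] [Module 𝕜 X]

/-- `N` is a complete `p`-norm on `X`. -/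
structure IsPBanach (𝕜 : Type) [RCLike 𝕜] {X : Type u} [AddCommGroup X] [Module 𝕜 X]
    (p : ℝ) (N : X → ℝ) : Prop where
  nonneg : ∀ f, 0 ≤ N f
  eq_zero : ∀ f, N f = 0 → f = 0
  smul : ∀ (a : 𝕜) (f : X), N (a • f) = ‖a‖ * N f
  add : ∀ f g, N (f + g) ^ p ≤ N f ^ p + N g ^ p
  complete : ∀ u : ℕ → X,
    (∀ ε > (0 : ℝ), ∃ n₀, ∀ n ≥ n₀, ∀ m ≥ n₀, N (u n - u m) < ε) →
      ∃ f, ∀ ε > (0 : ℝ), ∃ n₀, ∀ n ≥ n₀, N (u n - f) < ε

/-- A Markushevich basis: biorthogonal, both sequences bounded, dense span, and the span of the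
dual functionals is weak-star dense in the dual space. -/
structure IsMarkushevich (N : X → ℝ) (x : ℕ → X) (xs : ℕ → X →ₗ[𝕜] 𝕜) : Prop where
  biorth : ∀ n k, xs n (x k) = if n = k then 1 else 0
  bdd : ∃ C : ℝ, ∀ n, N (x n) ≤ C
  bdd_dual : ∃ C : ℝ, ∀ n f, ‖xs n f‖ ≤ C * N f
  dense : ∀ f, ∀ ε > (0 : ℝ), ∃ g ∈ Submodule.span 𝕜 (Set.range x), N (f - g) < ε
  total : ∀ φ : X →ₗ[𝕜] 𝕜, (∃ C : ℝ, ∀ f, ‖φ f‖ ≤ C * N f) →
    ∀ F : Finset X, ∀ ε > (0 : ℝ),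
      ∃ ψ ∈ Submodule.span 𝕜 (Set.range xs), ∀ f ∈ F, ‖φ f - ψ f‖ < ε

/-- The coordinate projection `P_A`. -/
def proj (x : ℕ → X) (xs : ℕ → X →ₗ[𝕜] 𝕜) (A : Finset ℕ) (f : X) : X :=
  ∑ n ∈ A, xs n f • x n

/-- A Schauder basis whose partial sum projections have norm at most `K`. -/
def IsSchauder (N : X → ℝ) (x : ℕ → X) (xs : ℕ → X →ₗ[𝕜] 𝕜) (K : ℝ) : Prop :=
  IsMarkushevich N x xs ∧ ∀ m f, N (proj x xs (Finset.range m) f) ≤ K * N f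

/-- `A` is a greedy set of `f`. -/
def IsGreedySet (xs : ℕ → X →ₗ[𝕜] 𝕜) (f : X) (A : Finset ℕ) : Prop :=
  ∀ n ∈ A, ∀ k ∉ A, ‖xs k f‖ ≤ ‖xs n f‖

/-- `A` is the greedy set of `f` of its size chosen by the thresholding greedy algorithm
(ties broken by the natural order). -/
def IsTGASet (xs : ℕ → X →ₗ[𝕜] 𝕜) (f : X) (A : Finset ℕ) : Prop :=
  ∀ n ∈ A, ∀ k ∉ A, ‖xs k f‖ < ‖xs n f‖ ∨ (‖xs k f‖ = ‖xs n f‖ ∧ n < k)

/-- The least constant with property `P` (infinite if there is none). -/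
noncomputable def leastConst (P : ℝ≥0 → Prop) : ℝ≥0∞ :=
  ⨅ (C : ℝ≥0) (_ : P C), (C : ℝ≥0∞)

/-- The quasi-greedy parameter `g_m`. -/
noncomputable def gPar (N : X → ℝ) (x : ℕ → X) (xs : ℕ → X →ₗ[𝕜] 𝕜) (m : ℕ) : ℝ≥0∞ :=
  leastConst fun C => ∀ (f : X) (A : Finset ℕ), IsGreedySet xs f A → A.card ≤ m →
    N (proj x xs A f) ≤ C * N f

/-- The squeeze symmetry parameter `λ_m`. -/
noncomputable def lamPar (N : X → ℝ) (x : ℕ → X) (xs : ℕ → X →ₗ[𝕜] 𝕜) (m : ℕ) : ℝ≥0∞ :=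
  leastConst fun C => ∀ (f : X) (A B : Finset ℕ) (ε : ℕ → 𝕜) (hB : B.Nonempty),
    (∀ n ∈ A, ‖ε n‖ = 1) → IsGreedySet xs f B → B.card = A.card → A.card ≤ m →
      (B.inf' hB fun n => ‖xs n f‖) * N (∑ n ∈ A, ε n • x n) ≤ C * N f

/-- The error of the best approximation of `f` from the span of `x n`, `n ∈ A`. -/
noncomputable def chebErr (𝕜 : Type) [RCLike 𝕜] {X : Type u} [AddCommGroup X] [Module 𝕜 X]
    (N : X → ℝ) (x : ℕ → X) (f : X) (A : Finset ℕ) : ℝ :=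
  sInf {r | ∃ a : ℕ → 𝕜, r = N (f - ∑ n ∈ A, a n • x n)}

/-- The best `m`-term approximation error. -/
noncomputable def bestErr (N : X → ℝ) (xs : ℕ → X →ₗ[𝕜] 𝕜) (m : ℕ) (f : X) : ℝ :=
  sInf {r | ∃ y : X, {n | xs n y ≠ 0}.encard ≤ m ∧ r = N (f - y)}

/-- The Chebyshev Lebesgue parameter `L_m^{ch}`. -/
noncomputable def chebPar (N : X → ℝ) (x : ℕ → X) (xs : ℕ → X →ₗ[𝕜] 𝕜) (m : ℕ) : ℝ≥0∞ :=
  leastConst fun C => ∀ (f : X) (A : Finset ℕ), IsTGASet xs f A → A.card = m →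
    chebErr 𝕜 N x f A ≤ C * bestErr N xs m f

end Pool.Agent.Lib.MP_f9d380_an
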