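import Pool.Agent.Lib.MP_f9d380_an.Defs

/-!
For Schauder bases the quasi-greedy and squeeze symmetry parameters are bounded linearly by the
Chebyshev Lebesgue parameter.
-/

namespace Pool.Agent.Lib.MP_f9d380_an

open scoped NNReal ENNReal
open Finset

universe u

variable {𝕜 : Type} [RCLike 𝕜] {X : Type u} [AddCommGroup X] [Module 𝕜 X]

/-- A quasi-norm with modulus of concavity at most `κ`. -/
structure QN (𝕜 : Type) [RCLike 𝕜] {X : Type u} [AddCommGroup X] [Module 𝕜 X]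
    (N : X → ℝ) (κ : ℝ) : Prop where
  nonneg : ∀ f, 0 ≤ N f
  smul : ∀ (a : 𝕜) (f : X), N (a • f) = ‖a‖ * N f
  add : ∀ f g, N (f + g) ≤ κ * (N f + N g)
  one_le : 1 ≤ κ

lemma IsPBanach.qn {p : ℝ} {N : X → ℝ} (h : IsPBanach 𝕜 p N) (hp : 0 < p) :
    QN 𝕜 N ((2 : ℝ) ^ (1 / p)) := by
  have h1 : (1 : ℝ) ≤ (2 : ℝ) ^ (1 / p) := Real.one_le_rpow (by norm_num) (by positivity)
  refine ⟨h.nonneg, h.smul, fun f g => ?_, h1⟩
  have hf := h.nonneg f
  have hg := h.nonneg g
  have e1 : N f ^ p ≤ (N f + N g) ^ p := Real.rpow_le_rpow hf (by linarith) hp.le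
  have e2 : N g ^ p ≤ (N f + N g) ^ p := Real.rpow_le_rpow hg (by linarith) hp.le
  have e3 : ((2 : ℝ) ^ (1 / p) * (N f + N g)) ^ p = 2 * (N f + N g) ^ p := by
    rw [Real.mul_rpow (by positivity) (by linarith), ← Real.rpow_mul (by norm_num),
      one_div_mul_cancel hp.ne', Real.rpow_one]
  rw [← Real.rpow_le_rpow_iff (h.nonneg _) (by positivity) hp, e3]
  linarith [h.add f g]

lemma QN.zero {N : X → ℝ} {κ : ℝ} (h : QN 𝕜 N κ) : N 0 = 0 := by
  have := h.smul 0 0
  simpa using this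

lemma QN.neg {N : X → ℝ} {κ : ℝ} (h : QN 𝕜 N κ) (f : X) : N (-f) = N f := by
  have := h.smul (-1) f
  simpa using this

lemma QN.sub {N : X → ℝ} {κ : ℝ} (h : QN 𝕜 N κ) (f g : X) : N (f - g) ≤ κ * (N f + N g) := by
  have := h.add f (-g)
  rwa [h.neg, ← sub_eq_add_neg] at this

section Biorth

variable {x : ℕ → X} {xs : ℕ → X →ₗ[𝕜] 𝕜}

lemma coef_sum (bi : ∀ n k, xs n (x k) = if n = k then 1 else 0) (A : Finset ℕ) (a : ℕ → 𝕜)
    (k : ℕ) : xs k (∑ n ∈ A, a n • x n) = if k ∈ A then a k else 0 := by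
  simp [map_sum, bi]

lemma coef_proj (bi : ∀ n k, xs n (x k) = if n = k then 1 else 0) (A : Finset ℕ) (f : X)
    (k : ℕ) : xs k (proj x xs A f) = if k ∈ A then xs k f else 0 :=
  coef_sum bi A (fun n => xs n f) k

lemma proj_congr (R : Finset ℕ) {f g : X} (h : ∀ n ∈ R, xs n f = xs n g) :
    proj x xs R f = proj x xs R g :=
  Finset.sum_congr rfl fun n hn => by rw [h n hn]

lemma proj_sub (R : Finset ℕ) (f g : X) :
    proj x xs R (f - g) = proj x xs R f - proj x xs R g := by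
  simp [proj, sub_smul]

lemma proj_sum (bi : ∀ n k, xs n (x k) = if n = k then 1 else 0) {R A : Finset ℕ} (hA : A ⊆ R)
    (a : ℕ → 𝕜) : proj x xs R (∑ n ∈ A, a n • x n) = ∑ n ∈ A, a n • x n := by
  unfold proj
  rw [← Finset.sum_subset hA]
  · refine Finset.sum_congr rfl fun n hn => ?_
    rw [coef_sum bi, if_pos hn]
  · intro n _ hn
    rw [coef_sum bi, if_neg hn, zero_smul]

end Biorth

lemma exists_sign (a : 𝕜) : ∃ s : 𝕜, ‖s‖ = 1 ∧ ∀ δ : ℝ, 0 ≤ δ → ‖a + (δ : 𝕜) * s‖ = ‖a‖ + δ := by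
  by_cases ha : a = 0
  · refine ⟨1, by simp, fun δ hδ => ?_⟩
    simp [ha, abs_of_nonneg hδ]
  · have hn : (0 : ℝ) < ‖a‖ := norm_pos_iff.2 ha
    have hn' : ((‖a‖ : ℝ) : 𝕜) ≠ 0 := by exact_mod_cast hn.ne'
    refine ⟨a / (‖a‖ : 𝕜), by simp [hn.ne'], fun δ hδ => ?_⟩
    have : a + (δ : 𝕜) * (a / (‖a‖ : 𝕜)) = (((‖a‖ + δ) / ‖a‖ : ℝ) : 𝕜) * a := by
      push_cast
      field_simp
    rw [this, norm_mul, RCLike.norm_ofReal, abs_of_nonneg (by positivity)]
    field_simp

/-- `L` is an admissible constant in the definition of `chebPar`. -/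
def ChebAdm (N : X → ℝ) (x : ℕ → X) (xs : ℕ → X →ₗ[𝕜] 𝕜) (m : ℕ) (L : ℝ) : Prop :=
  ∀ (f : X) (A : Finset ℕ), IsTGASet xs f A → A.card = m →
    chebErr 𝕜 N x f A ≤ L * bestErr N xs m f

section Core

variable {N : X → ℝ} {κ : ℝ} {x : ℕ → X} {xs : ℕ → X →ₗ[𝕜] 𝕜}

lemma bestErr_le (hN : ∀ f, 0 ≤ N f) {m : ℕ} (f y : X) (F : Finset ℕ) (hF : F.card ≤ m)
    (hy : ∀ n ∉ F, xs n y = 0) : bestErr N xs m f ≤ N (f - y) := by
  refine csInf_le ⟨0, ?_⟩ ⟨y, ?_, rfl⟩
  · rintro r ⟨y, -, rfl⟩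
    exact hN _
  · have : {n | xs n y ≠ 0} ⊆ (F : Set ℕ) := fun n hn => by
      by_contra h
      exact hn (hy n h)
    calc _ ≤ (F : Set ℕ).encard := Set.encard_le_encard this
      _ = F.card := Set.encard_coe_eq_coe_finsetCard F
      _ ≤ m := by exact_mod_cast hF

lemma le_chebErr (f : X) (A : Finset ℕ) {c : ℝ}
    (h : ∀ a : ℕ → 𝕜, c ≤ N (f - ∑ n ∈ A, a n • x n)) : c ≤ chebErr 𝕜 N x f A := by
  refine le_csInf ⟨_, fun _ => 0, rfl⟩ ?_
  rintro r ⟨a, rfl⟩
  exact h a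

lemma core (hq : QN 𝕜 N κ) (bi : ∀ n k, xs n (x k) = if n = k then 1 else 0) {m : ℕ} {L : ℝ}
    (hL0 : 0 ≤ L) (hL : ChebAdm N x xs m L) (R G₀ F : Finset ℕ) {K' : ℝ} (hK : 0 < K')
    (hR : ∀ f, N (proj x xs R f) ≤ K' * N f) (h₀ y₀ : X) (t : ℝ)
    (hG : ∀ n ∈ G₀, t ≤ ‖xs n h₀‖) (hG' : ∀ n ∉ G₀, ‖xs n h₀‖ ≤ t) (hd : Disjoint R G₀)
    (hy : ∀ n ∉ F, xs n y₀ = 0) (hF : F.card ≤ G₀.card) (hm : G₀.card ≤ m) :
    N (proj x xs R h₀) ≤ K' * L * κ * N (h₀ - y₀) := by
  have hκ : 0 < κ := lt_of_lt_of_le one_pos hq.one_le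
  set M := (R ∪ G₀).sup id + 1 with hM
  set D := Finset.Ico M (M + (m - G₀.card)) with hD
  have hDc : D.card = m - G₀.card := by simp [hD]
  have hlt : ∀ n ∈ R ∪ G₀, n ∉ D := by
    intro n hn hnD
    have : n ≤ (R ∪ G₀).sup id := Finset.le_sup (f := id) hn
    have := (Finset.mem_Ico.1 hnD).1
    omega
  have hGD : Disjoint G₀ D := Finset.disjoint_left.2 fun n hn => hlt n (by simp [hn])
  choose s hs1 hs2 using fun n => exists_sign (xs n h₀)
  set u := ∑ n ∈ G₀, s n • x n with hu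
  set v := ∑ n ∈ D, (((|t| + 1 : ℝ) : 𝕜) * s n) • x n with hv
  have main : ∀ η > (0 : ℝ), N (proj x xs R h₀) ≤ K' * (L * (κ * (N (h₀ - y₀) + η))) := by
    intro η hη
    have hu0 := hq.nonneg u
    set δ := η / (N u + 1) with hδ
    have hδ0 : 0 < δ := by positivity
    have hδu : δ * N u ≤ η := by
      rw [hδ, div_mul_eq_mul_div, div_le_iff₀ (by positivity)]
      nlinarith
    set h := h₀ + (δ : 𝕜) • u + v with hh
    have coef : ∀ k, xs k h = xs k h₀ + (δ : 𝕜) * (if k ∈ G₀ then s k else 0) +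
        (if k ∈ D then ((|t| + 1 : ℝ) : 𝕜) * s k else 0) := by
      intro k
      rw [hh, map_add, map_add, map_smul, hu, hv, coef_sum bi, coef_sum bi, smul_eq_mul]
    have htga : IsTGASet xs h (G₀ ∪ D) := by
      intro n hn k hk
      left
      simp only [Finset.mem_union, not_or] at hk
      have e1 : ‖xs k h‖ ≤ t := by
        rw [coef k, if_neg hk.1, if_neg hk.2]
        simpa using hG' k hk.1
      rcases Finset.mem_union.1 hn with hn | hn
      · rw [coef n, if_pos hn, if_neg (Finset.disjoint_left.1 hGD hn), add_zero, hs2 n δ hδ0.le]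
        linarith [hG n hn]
      · rw [coef n, if_neg (Finset.disjoint_right.1 hGD hn), if_pos hn, mul_zero, add_zero,
          hs2 n _ (by positivity)]
        linarith [norm_nonneg (xs n h₀), le_abs_self t]
    have hcard : (G₀ ∪ D).card = m := by
      rw [Finset.card_union_of_disjoint hGD, hDc]; omega
    have e1 := hL h _ htga hcard
    have e2 : bestErr N xs m h ≤ N (h - (y₀ + v)) := by
      refine bestErr_le hq.nonneg h _ (F ∪ D) ?_ ?_
      · have := Finset.card_union_le F D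
        omega
      · intro n hn
        simp only [Finset.mem_union, not_or] at hn
        rw [map_add, hy n hn.1, hv, coef_sum bi, if_neg hn.2, add_zero]
    have e3 : N (h - (y₀ + v)) ≤ κ * (N (h₀ - y₀) + η) := by
      have : h - (y₀ + v) = (h₀ - y₀) + (δ : 𝕜) • u := by rw [hh]; abel
      rw [this]
      refine (hq.add _ _).trans ?_
      rw [hq.smul, RCLike.norm_ofReal, abs_of_pos hδ0]
      gcongr
    have e4 : N (proj x xs R h₀) / K' ≤ chebErr 𝕜 N x h (G₀ ∪ D) := by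
      refine le_chebErr h _ fun a => ?_
      rw [div_le_iff₀ hK, mul_comm]
      refine le_trans (le_of_eq ?_) (hR _)
      congr 1
      refine proj_congr R fun n hn => ?_
      have n1 : n ∉ G₀ := Finset.disjoint_left.1 hd hn
      have n2 : n ∉ D := hlt n (by simp [hn])
      rw [map_sub, coef n, coef_sum bi, if_neg n1, if_neg n2, if_neg (by simp [n1, n2])]
      simp
    rw [div_le_iff₀ hK] at e4
    calc N (proj x xs R h₀) ≤ chebErr 𝕜 N x h (G₀ ∪ D) * K' := e4
      _ ≤ (L * (κ * (N (h₀ - y₀) + η))) * K' := by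
        gcongr
        exact e1.trans (mul_le_mul_of_nonneg_left (e2.trans e3) hL0)
      _ = _ := by ring
  refine le_of_forall_pos_le_add fun ε hε => ?_
  have hc : 0 ≤ K' * L * κ := by positivity
  have := main (ε / (K' * L * κ + 1)) (by positivity)
  have e : K' * L * κ * (ε / (K' * L * κ + 1)) ≤ ε := by
    rw [← mul_div_assoc, div_le_iff₀ (by positivity)]
    nlinarith
  nlinarith

lemma one_le_of_chebAdm (hq : QN 𝕜 N κ) (bi : ∀ n k, xs n (x k) = if n = k then 1 else 0)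
    (hb : ∃ C : ℝ, ∀ n f, ‖xs n f‖ ≤ C * N f) {m : ℕ} {L : ℝ} (hL : ChebAdm N x xs m L) :
    1 ≤ L := by
  obtain ⟨C, hC⟩ := hb
  set f := ∑ n ∈ range (m + 1), (1 : 𝕜) • x n with hf
  have coef : ∀ k, xs k f = if k ∈ range (m + 1) then 1 else 0 := fun k =>
    coef_sum bi _ (fun _ => 1) k
  have htga : IsTGASet xs f (range m) := by
    intro n hn k hk
    have hn' := Finset.mem_range.1 hn
    have hk' : m ≤ k := by simpa using hk
    rw [coef n, coef k, if_pos (Finset.mem_range.2 (show n < m + 1 by omega))]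
    split_ifs
    · exact Or.inr ⟨rfl, by omega⟩
    · left; simp
  have e1 := hL f _ htga (by simp)
  have e2 : bestErr N xs m f ≤ chebErr 𝕜 N x f (range m) := by
    refine le_chebErr f _ fun a => bestErr_le hq.nonneg f _ (range m) (by simp) ?_
    intro n hn
    rw [coef_sum bi, if_neg hn]
  have e3 : 1 / (|C| + 1) ≤ bestErr N xs m f := by
    refine le_csInf ⟨_, 0, by simp, rfl⟩ ?_
    rintro r ⟨y, hy, rfl⟩
    obtain ⟨n, hn, hny⟩ : ∃ n ∈ range (m + 1), xs n y = 0 := by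
      by_contra hcon
      push Not at hcon
      have hsub : ((range (m + 1) : Finset ℕ) : Set ℕ) ⊆ {n | xs n y ≠ 0} :=
        fun n hn => hcon n hn
      have := (Set.encard_le_encard hsub).trans hy
      rw [Set.encard_coe_eq_coe_finsetCard, Finset.card_range] at this
      have : m + 1 ≤ m := by exact_mod_cast this
      omega
    have := hC n (f - y)
    rw [map_sub, hny, coef n, if_pos hn, sub_zero, norm_one] at this
    rw [div_le_iff₀ (by positivity)]
    have h0 := hq.nonneg (f - y)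
    nlinarith [le_abs_self C]
  have e4 : 0 < bestErr N xs m f := lt_of_lt_of_le (by positivity) e3
  nlinarith

lemma g_piece (hq : QN 𝕜 N κ) (bi : ∀ n k, xs n (x k) = if n = k then 1 else 0) {m : ℕ} {L : ℝ}
    (hL0 : 0 ≤ L) (hL : ChebAdm N x xs m L) (R : Finset ℕ) {K' : ℝ} (hK : 0 < K')
    (hR : ∀ f, N (proj x xs R f) ≤ K' * N f) (f : X) (A : Finset ℕ) (hA : IsGreedySet xs f A)
    (hne : A.Nonempty) (hm : A.card ≤ m) (hc : (A ∩ R).card ≤ (A \ R).card) :
    N (proj x xs (A ∩ R) f) ≤ κ * (K' * N f + K' * L * κ * N f) := by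
  have hκ : 0 < κ := lt_of_lt_of_le one_pos hq.one_le
  set t := A.inf' hne fun n => ‖xs n f‖ with ht
  have ht0 : 0 ≤ t := (Finset.le_inf'_iff _ _).2 fun n _ => norm_nonneg _
  have key := core hq bi hL0 hL R (A \ R) (A ∩ R) hK hR (f - proj x xs (A ∩ R) f)
    (-proj x xs (A ∩ R) f) t ?_ ?_ Finset.disjoint_sdiff ?_ hc
    ((Finset.card_le_card Finset.sdiff_subset).trans hm)
  · have e1 : f - proj x xs (A ∩ R) f - -proj x xs (A ∩ R) f = f := by abel
    have e2 : proj x xs (A ∩ R) f =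
        proj x xs R f - proj x xs R (f - proj x xs (A ∩ R) f) := by
      rw [proj_sub]
      have : proj x xs R (proj x xs (A ∩ R) f) = proj x xs (A ∩ R) f :=
        proj_sum bi Finset.inter_subset_right _
      rw [this]; abel
    rw [e1] at key
    rw [e2]
    refine (hq.sub _ _).trans ?_
    gcongr
    exact hR f
  · intro n hn
    obtain ⟨h1, h2⟩ := Finset.mem_sdiff.1 hn
    rw [map_sub, coef_proj bi, if_neg (by simp [h2]), sub_zero]
    exact Finset.inf'_le (fun n => ‖xs n f‖) h1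
  · intro n hn
    rw [map_sub, coef_proj bi]
    by_cases h : n ∈ A ∩ R
    · rw [if_pos h]; simpa using ht0
    · rw [if_neg h, sub_zero]
      have hnA : n ∉ A := by
        intro hA'
        simp [hA'] at hn h
        exact h hn
      exact (Finset.le_inf'_iff _ _).2 fun k hk => hA k hk n hnA
  · intro n hn
    rw [map_neg, coef_proj bi, if_neg hn, neg_zero]

lemma lam_piece (hq : QN 𝕜 N κ) (bi : ∀ n k, xs n (x k) = if n = k then 1 else 0) {m : ℕ}
    {L : ℝ} (hL0 : 0 ≤ L) (hL : ChebAdm N x xs m L) (R : Finset ℕ) {K' : ℝ} (hK : 0 < K')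
    (hR : ∀ f, N (proj x xs R f) ≤ K' * N f) (f : X) (A B : Finset ℕ) (ε : ℕ → 𝕜)
    (hne : B.Nonempty) (hε : ∀ n ∈ A, ‖ε n‖ = 1) (hB : IsGreedySet xs f B) (hm : B.card ≤ m)
    (hc : (A ∩ R).card ≤ (B \ R).card) :
    (B.inf' hne fun n => ‖xs n f‖) * N (∑ n ∈ A ∩ R, ε n • x n) ≤
      K' * L * κ * (κ * (N f + K' * N f)) := by
  have hκ : 0 < κ := lt_of_lt_of_le one_pos hq.one_le
  set t := B.inf' hne fun n => ‖xs n f‖ with ht
  have ht0 : 0 ≤ t := (Finset.le_inf'_iff _ _).2 fun n _ => norm_nonneg _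
  set w := ∑ n ∈ A ∩ R, ε n • x n with hw
  have cw : ∀ k, xs k w = if k ∈ A ∩ R then ε k else 0 := fun k => coef_sum bi _ _ k
  have key := core hq bi hL0 hL R (B \ R) (A ∩ R) hK hR (f - proj x xs R f + (t : 𝕜) • w)
    ((t : 𝕜) • w) t ?_ ?_ Finset.disjoint_sdiff ?_ hc
    ((Finset.card_le_card Finset.sdiff_subset).trans hm)
  · have e1 : f - proj x xs R f + (t : 𝕜) • w - (t : 𝕜) • w = f - proj x xs R f := by abel
    have e2 : proj x xs R (f - proj x xs R f + (t : 𝕜) • w) = (t : 𝕜) • w := by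
      have h1 : proj x xs R (f - proj x xs R f + (t : 𝕜) • w) = proj x xs R ((t : 𝕜) • w) := by
        refine proj_congr R fun n hn => ?_
        rw [map_add, map_sub, coef_proj bi, if_pos hn, sub_self, zero_add]
      have h2 : (t : 𝕜) • w = ∑ n ∈ A ∩ R, ((t : 𝕜) * ε n) • x n := by
        rw [hw, Finset.smul_sum]
        simp [mul_smul]
      rw [h1, h2]
      exact proj_sum bi Finset.inter_subset_right _
    rw [e1, e2, hq.smul, RCLike.norm_ofReal, abs_of_nonneg ht0] at key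
    refine key.trans ?_
    gcongr
    refine (hq.sub _ _).trans ?_
    gcongr
    exact hR f
  · intro n hn
    obtain ⟨h1, h2⟩ := Finset.mem_sdiff.1 hn
    rw [map_add, map_sub, coef_proj bi, if_neg h2, map_smul, cw, if_neg (by simp [h2])]
    rw [smul_zero, sub_zero, add_zero]
    exact Finset.inf'_le (fun n => ‖xs n f‖) h1
  · intro n hn
    rw [map_add, map_sub, coef_proj bi, map_smul, cw]
    by_cases h : n ∈ R
    · rw [if_pos h, sub_self, zero_add]
      by_cases h' : n ∈ A ∩ R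
      · rw [if_pos h', smul_eq_mul, norm_mul, hε n (Finset.mem_inter.1 h').1, RCLike.norm_ofReal,
          abs_of_nonneg ht0, mul_one]
      · rw [if_neg h']; simpa using ht0
    · rw [if_neg h, if_neg (by simp [h]), sub_zero, smul_zero, add_zero]
      have hnB : n ∉ B := by
        intro hB'
        simp [hB'] at hn
        exact h hn
      exact (Finset.le_inf'_iff _ _).2 fun k hk => hB k hk n hnB
  · intro n hn
    rw [map_smul, cw, if_neg hn, smul_zero]

lemma exists_split (A B : Finset ℕ) (hAB : B.card = A.card) (hne : A.Nonempty) :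
    ∃ c M : ℕ, c + 1 ≤ M ∧ (∀ n ∈ A, n < M) ∧
      (A ∩ Ico 0 c).card ≤ (B \ Ico 0 c).card ∧
      (A ∩ Ico (c + 1) M).card ≤ (B \ Ico (c + 1) M).card := by
  classical
  set M := (A ∪ B).sup id + 1 with hM
  have hA : ∀ n ∈ A, n < M := fun n hn =>
    Nat.lt_succ_of_le (Finset.le_sup (f := id) (Finset.mem_union_left B hn))
  have hB : ∀ n ∈ B, n < M := fun n hn =>
    Nat.lt_succ_of_le (Finset.le_sup (f := id) (Finset.mem_union_right A hn))
  let P : ℕ → Prop := fun c => A.card < (A ∩ Ico 0 c).card + (B ∩ Ico 0 c).card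
  have hPM : P M := by
    have e1 : A ∩ Ico 0 M = A := Finset.inter_eq_left.2 fun n hn => by simp [hA n hn]
    have e2 : B ∩ Ico 0 M = B := Finset.inter_eq_left.2 fun n hn => by simp [hB n hn]
    have := hne.card_pos
    simp only [P, e1, e2]
    omega
  have hex : ∃ c, P c := ⟨M, hPM⟩
  have h0 : Nat.find hex ≠ 0 := by
    intro h
    have := Nat.find_spec hex
    rw [h] at this
    simp [P] at this
  obtain ⟨c, hc⟩ := Nat.exists_eq_succ_of_ne_zero h0
  have h1 : P (c + 1) := by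
    have := Nat.find_spec hex
    rwa [hc] at this
  have h2 : ¬ P c := Nat.find_min hex (by omega)
  have h3 : c + 1 ≤ M := by
    have := Nat.find_min' hex hPM
    omega
  refine ⟨c, M, h3, hA, ?_, ?_⟩
  · have := Finset.card_sdiff_add_card_inter B (Ico 0 c)
    simp only [P] at h2
    omega
  · have e1 : A ∩ Ico (c + 1) M = A \ Ico 0 (c + 1) := by
      ext n
      simp only [Finset.mem_inter, Finset.mem_Ico, Finset.mem_sdiff]
      constructor
      · rintro ⟨h, h', -⟩; exact ⟨h, by omega⟩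
      · rintro ⟨h, h'⟩; exact ⟨h, by omega, hA n h⟩
    have e2 : B \ Ico (c + 1) M = B ∩ Ico 0 (c + 1) := by
      ext n
      simp only [Finset.mem_inter, Finset.mem_Ico, Finset.mem_sdiff]
      constructor
      · rintro ⟨h, h'⟩; have := hB n h; exact ⟨h, by omega⟩
      · rintro ⟨h, h'⟩; exact ⟨h, by omega⟩
    have := Finset.card_sdiff_add_card_inter A (Ico 0 (c + 1))
    simp only [P] at h1
    rw [e1, e2]
    omega

lemma sum_split (A : Finset ℕ) (u : ℕ → X) {c M : ℕ} (hc : c + 1 ≤ M) (hA : ∀ n ∈ A, n < M) :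
    ∑ n ∈ A, u n = ∑ n ∈ A ∩ Ico 0 c, u n + ∑ n ∈ A ∩ Ico c (c + 1), u n +
      ∑ n ∈ A ∩ Ico (c + 1) M, u n := by
  have e : ∀ a b, ∑ n ∈ A ∩ Ico a b, u n = ∑ n ∈ Ico a b, if n ∈ A then u n else 0 := by
    intro a b
    rw [Finset.sum_ite_mem, Finset.inter_comm]
  rw [e, e, e, Finset.sum_Ico_consecutive _ (by omega) (by omega),
    Finset.sum_Ico_consecutive _ (by omega) hc, ← e]
  congr 1
  exact (Finset.inter_eq_left.2 fun n hn => by simp [hA n hn]).symm

lemma proj_Ico_le (hq : QN 𝕜 N κ) {K : ℝ} (hK : ∀ m f, N (proj x xs (range m) f) ≤ K * N f)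
    (a b : ℕ) (f : X) : N (proj x xs (Ico a b) f) ≤ (2 * κ * max K 1) * N f := by
  have hκ : 0 < κ := lt_of_lt_of_le one_pos hq.one_le
  have h0 := hq.nonneg f
  have hK' : ∀ m, N (proj x xs (range m) f) ≤ max K 1 * N f := fun m =>
    (hK m f).trans (mul_le_mul_of_nonneg_right (le_max_left _ _) h0)
  have hm : 0 ≤ max K 1 := le_trans zero_le_one (le_max_right _ _)
  rcases le_total a b with hab | hab
  · have : proj x xs (Ico a b) f = proj x xs (range b) f - proj x xs (range a) f :=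
      Finset.sum_Ico_eq_sub _ hab
    rw [this]
    refine (hq.sub _ _).trans ?_
    nlinarith [hK' a, hK' b]
  · rw [Finset.Ico_eq_empty_of_le hab]
    simp only [proj, Finset.sum_empty, hq.zero]
    positivity

lemma three_le (hq : QN 𝕜 N κ) (u v w : X) {t b : ℝ} (ht : 0 ≤ t) (hu : t * N u ≤ b)
    (hv : t * N v ≤ b) (hw : t * N w ≤ b) : t * N (u + v + w) ≤ 3 * κ ^ 2 * b := by
  have hκ := hq.one_le
  have hb : 0 ≤ b := le_trans (mul_nonneg ht (hq.nonneg u)) hu
  have e1 : N (u + v + w) ≤ κ * (κ * (N u + N v) + N w) := by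
    refine (hq.add _ _).trans ?_
    gcongr
    exact hq.add _ _
  calc t * N (u + v + w) ≤ t * (κ * (κ * (N u + N v) + N w)) := by gcongr
    _ = κ ^ 2 * (t * N u) + κ ^ 2 * (t * N v) + κ * (t * N w) := by ring
    _ ≤ κ ^ 2 * b + κ ^ 2 * b + κ * b := by gcongr
    _ ≤ κ ^ 2 * b + κ ^ 2 * b + κ ^ 2 * b := by
        gcongr
        nlinarith
    _ = 3 * κ ^ 2 * b := by ring

/-- The constant. -/
noncomputable def bigC (κ K : ℝ) : ℝ :=
  3 * κ ^ 2 * ((2 * κ * max K 1) * κ ^ 2 * (1 + 2 * κ * max K 1))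

lemma g_bound (hq : QN 𝕜 N κ) (bi : ∀ n k, xs n (x k) = if n = k then 1 else 0) {K : ℝ}
    (hK : ∀ m f, N (proj x xs (range m) f) ≤ K * N f) {m : ℕ} {L : ℝ} (hL1 : 1 ≤ L)
    (hL : ChebAdm N x xs m L) (f : X) (A : Finset ℕ) (hA : IsGreedySet xs f A)
    (hm : A.card ≤ m) : N (proj x xs A f) ≤ bigC κ K * L * N f := by
  have hκ := hq.one_le
  have hm1 : 1 ≤ max K 1 := le_max_right _ _
  have h0 := hq.nonneg f
  unfold bigC
  have hI := proj_Ico_le hq hK
  set K' := 2 * κ * max K 1 with hK'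
  have hK1 : 1 ≤ K' := by nlinarith
  rcases A.eq_empty_or_nonempty with rfl | hne
  · simp only [proj, Finset.sum_empty, hq.zero]
    positivity
  obtain ⟨c, M, hcM, hAM, h1, h2⟩ := exists_split A A rfl hne
  have side : κ * (K' * N f + K' * L * κ * N f) ≤ K' * κ ^ 2 * (1 + K') * L * N f := by
    have e1 : 1 ≤ L * κ := by nlinarith
    have e2 : κ * (K' * N f + K' * L * κ * N f) = (κ * K' * N f) * (1 + L * κ) := by ring
    have e3 : K' * κ ^ 2 * (1 + K') * L * N f = (κ * K' * N f) * (L * κ + L * κ * K') := by ring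
    rw [e2, e3]
    refine mul_le_mul_of_nonneg_left ?_ (by positivity)
    nlinarith
  have p1 := (g_piece hq bi (by linarith) hL _ (by linarith) (hI 0 c) f A hA hne hm h1).trans side
  have p3 := (g_piece hq bi (by linarith) hL _ (by linarith) (hI (c + 1) M) f A hA hne hm
    h2).trans side
  have p2 : N (proj x xs (A ∩ Ico c (c + 1)) f) ≤ K' * κ ^ 2 * (1 + K') * L * N f := by
    have e : K' * N f ≤ K' * κ ^ 2 * (1 + K') * L * N f := by
      have e1 : 1 ≤ κ ^ 2 := by nlinarith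
      have e2 : 1 ≤ κ ^ 2 * (1 + K') := by nlinarith
      have e3 : 1 ≤ κ ^ 2 * (1 + K') * L := by nlinarith
      calc K' * N f = (K' * N f) * 1 := by ring
        _ ≤ (K' * N f) * (κ ^ 2 * (1 + K') * L) := by gcongr
        _ = _ := by ring
    by_cases hc : c ∈ A
    · have : A ∩ Ico c (c + 1) = Ico c (c + 1) :=
        Finset.inter_eq_right.2 fun n hn => by
          have : n = c := by simpa using hn
          rwa [this]
      rw [this]
      exact (hI _ _ f).trans e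
    · have : A ∩ Ico c (c + 1) = ∅ := by simp [hc]
      rw [this]
      simp only [proj, Finset.sum_empty, hq.zero]
      positivity
  have := three_le hq _ _ _ zero_le_one ((one_mul _).trans_le p1) ((one_mul _).trans_le p2)
    ((one_mul _).trans_le p3)
  rw [one_mul] at this
  unfold proj at this ⊢
  rw [sum_split A _ hcM hAM]
  refine this.trans (le_of_eq ?_)
  ring

lemma lam_bound (hq : QN 𝕜 N κ) (bi : ∀ n k, xs n (x k) = if n = k then 1 else 0) {K : ℝ}
    (hK : ∀ m f, N (proj x xs (range m) f) ≤ K * N f) {m : ℕ} {L : ℝ} (hL1 : 1 ≤ L)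
    (hL : ChebAdm N x xs m L) (f : X) (A B : Finset ℕ) (ε : ℕ → 𝕜) (hne : B.Nonempty)
    (hε : ∀ n ∈ A, ‖ε n‖ = 1) (hB : IsGreedySet xs f B) (hAB : B.card = A.card)
    (hm : A.card ≤ m) :
    (B.inf' hne fun n => ‖xs n f‖) * N (∑ n ∈ A, ε n • x n) ≤ bigC κ K * L * N f := by
  have hκ := hq.one_le
  have hm1 : 1 ≤ max K 1 := le_max_right _ _
  have h0 := hq.nonneg f
  unfold bigC
  have hI := proj_Ico_le hq hK
  set K' := 2 * κ * max K 1 with hK'
  have hK1 : 1 ≤ K' := by nlinarith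
  have hAne : A.Nonempty := by
    rw [← Finset.card_pos, ← hAB]; exact hne.card_pos
  obtain ⟨c, M, hcM, hAM, h1, h2⟩ := exists_split A B hAB hAne
  have side : K' * L * κ * (κ * (N f + K' * N f)) = K' * κ ^ 2 * (1 + K') * L * N f := by ring
  have piece := fun R hR hc => (lam_piece hq bi (by linarith) hL R (by linarith : 0 < K') hR f A B
    ε hne hε hB (hAB ▸ hm) hc).trans_eq side
  set t := B.inf' hne fun n => ‖xs n f‖ with ht
  have ht0 : 0 ≤ t := (Finset.le_inf'_iff _ _).2 fun n _ => norm_nonneg _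
  have p1 := piece _ (hI 0 c) h1
  have p3 := piece _ (hI (c + 1) M) h2
  have p2 : t * N (∑ n ∈ A ∩ Ico c (c + 1), ε n • x n) ≤ K' * κ ^ 2 * (1 + K') * L * N f := by
    by_cases hcB : c ∈ B
    · by_cases hc : c ∈ A
      · have e : K' * N f ≤ K' * κ ^ 2 * (1 + K') * L * N f := by
          have e1 : 1 ≤ κ ^ 2 := by nlinarith
          have e2 : 1 ≤ κ ^ 2 * (1 + K') := by nlinarith
          have e3 : 1 ≤ κ ^ 2 * (1 + K') * L := by nlinarith
          calc K' * N f = (K' * N f) * 1 := by ring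
            _ ≤ (K' * N f) * (κ ^ 2 * (1 + K') * L) := by gcongr
            _ = _ := by ring
        have e1 : A ∩ Ico c (c + 1) = {c} := by simp [hc]
        have e2 := hI c (c + 1) f
        rw [Nat.Ico_succ_singleton] at e2
        simp only [proj, Finset.sum_singleton, hq.smul] at e2
        rw [e1, Finset.sum_singleton, hq.smul, hε c hc, one_mul]
        refine le_trans ?_ (e2.trans e)
        gcongr
        · exact hq.nonneg _
        · exact Finset.inf'_le (fun n => ‖xs n f‖) hcB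
      · have : A ∩ Ico c (c + 1) = ∅ := by simp [hc]
        rw [this]
        simp only [Finset.sum_empty, hq.zero, mul_zero]
        positivity
    · refine piece _ (hI c (c + 1)) ?_
      have e1 : B \ Ico c (c + 1) = B := by simp [hcB]
      rw [e1, hAB]
      exact Finset.card_le_card Finset.inter_subset_left
  have := three_le hq _ _ _ ht0 p1 p2 p3
  rw [sum_split A _ hcM hAM]
  refine this.trans (le_of_eq ?_)
  ring

end Core

lemma leastConst_le {P : ℝ≥0 → Prop} {C : ℝ≥0} (h : P C) : leastConst P ≤ C :=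
  iInf₂_le C h

lemma le_mul_leastConst {P : ℝ≥0 → Prop} {a : ℝ≥0∞} {C : ℝ≥0} (hC : C ≠ 0)
    (h : ∀ L, P L → a ≤ C * L) : a ≤ C * leastConst P := by
  unfold leastConst
  rw [ENNReal.mul_iInf_of_ne (by exact_mod_cast hC) ENNReal.coe_ne_top]
  refine le_iInf fun L => ?_
  rw [ENNReal.mul_iInf_of_ne (by exact_mod_cast hC) ENNReal.coe_ne_top]
  exact le_iInf fun hL => h L hL

theorem schauder_linear (p K : ℝ) (hp : 0 < p) :
    ∃ C : ℝ≥0, ∀ (𝕜 : Type) [RCLike 𝕜] (X : Type u) [AddCommGroup X] [Module 𝕜 X]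
      (N : X → ℝ) (x : ℕ → X) (xs : ℕ → X →ₗ[𝕜] 𝕜), IsPBanach 𝕜 p N → IsSchauder N x xs K →
        ∀ m : ℕ, max (gPar N x xs m) (lamPar N x xs m) ≤ C * chebPar N x xs m := by
  have h1 : (1 : ℝ) ≤ (2 : ℝ) ^ (1 / p) := Real.one_le_rpow (by norm_num) (by positivity)
  have hm1 : 1 ≤ max K 1 := le_max_right _ _
  have hC : 0 < bigC ((2 : ℝ) ^ (1 / p)) K := by
    unfold bigC
    positivity
  obtain ⟨C, hCe⟩ : ∃ C : ℝ≥0, (C : ℝ) = bigC ((2 : ℝ) ^ (1 / p)) K := ⟨⟨_, hC.le⟩, rfl⟩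
  refine ⟨C, ?_⟩
  intro 𝕜 _ X _ _ N x xs hN hS m
  have hq := hN.qn hp
  refine le_mul_leastConst (by
    intro h
    rw [h] at hCe
    exact hC.ne hCe) fun L hL => ?_
  have hL1 : (1 : ℝ) ≤ L := one_le_of_chebAdm hq hS.1.biorth hS.1.bdd_dual hL
  rw [← ENNReal.coe_mul]
  refine max_le (leastConst_le fun f A hA hm => ?_)
    (leastConst_le fun f A B ε hne hε hB hAB hm => ?_)
  · rw [NNReal.coe_mul, hCe]
    exact g_bound hq hS.1.biorth hS.2 hL1 hL f A hA hm
  · rw [NNReal.coe_mul, hCe]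
    exact lam_bound hq hS.1.biorth hS.2 hL1 hL f A B ε hne hε hB hAB hm

end Pool.Agent.Lib.MP_f9d380_an
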