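import Pool.Agent.Lib.MP_f9d380_an.Schauder
import Pool.Agent.Lib.MP_f9d380_an.Comb

/-!
The Banach space of the block example and its parameters.
-/

namespace Pool.Agent.Lib.MP_f9d380_an

open Finset
open scoped NNReal ENNReal

variable {𝕜 : Type} [RCLike 𝕜]

/-- Admissible norming functionals: a finite support with coefficients. -/
def Adm (B : ℕ → Finset ℕ) (γ : Finset ℕ × (ℕ → 𝕜)) : Prop :=
  ∃ l, (Disjoint γ.1 (B l) ∧ γ.1.card ≤ cut l ∧ ∀ n ∈ γ.1, ‖γ.2 n‖ ≤ wq l) ∨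
    (γ.1 = B l ∧ ∀ n ∈ γ.1, γ.2 n = (wq l : 𝕜))

/-- The index set of the norming functionals. -/
def Gam (𝕜 : Type) [RCLike 𝕜] (B : ℕ → Finset ℕ) : Type :=
  {γ : Finset ℕ × (ℕ → 𝕜) // Adm B γ}

/-- The ambient space. -/
abbrev Amb (𝕜 : Type) [RCLike 𝕜] (B : ℕ → Finset ℕ) : Type :=
  lp (fun _ : Gam 𝕜 B => 𝕜) ∞

variable {B : ℕ → Finset ℕ}

lemma Adm.norm_le {γ : Finset ℕ × (ℕ → 𝕜)} (h : Adm B γ) {n : ℕ} (hn : n ∈ γ.1) :
    ‖γ.2 n‖ ≤ 1 := by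
  obtain ⟨l, h | h⟩ := h
  · exact (h.2.2 n hn).trans (wq_le_one l)
  · rw [h.2 n hn, RCLike.norm_ofReal, abs_of_pos (wq_pos l)]
    exact wq_le_one l

lemma ev_bound (n : ℕ) (γ : Gam 𝕜 B) : ‖if n ∈ γ.1.1 then γ.1.2 n else 0‖ ≤ 1 := by
  split_ifs with h
  · exact γ.2.norm_le h
  · simp

/-- The basis vectors in the ambient space. -/
noncomputable def ev (𝕜 : Type) [RCLike 𝕜] (B : ℕ → Finset ℕ) (n : ℕ) : Amb 𝕜 B :=
  ⟨fun γ => if n ∈ γ.1.1 then γ.1.2 n else 0, memℓp_infty ⟨1, by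
    rintro _ ⟨γ, rfl⟩
    exact ev_bound n γ⟩⟩

/-- The space. -/
noncomputable def Sp (𝕜 : Type) [RCLike 𝕜] (B : ℕ → Finset ℕ) : Submodule 𝕜 (Amb 𝕜 B) :=
  (Submodule.span 𝕜 (Set.range (ev 𝕜 B))).topologicalClosure

instance : CompleteSpace (Sp 𝕜 B) :=
  (Submodule.isClosed_topologicalClosure _).completeSpace_coe

/-- The basis. -/
noncomputable def bx (𝕜 : Type) [RCLike 𝕜] (B : ℕ → Finset ℕ) (n : ℕ) : Sp 𝕜 B :=
  ⟨ev 𝕜 B n, Submodule.le_topologicalClosure _ (Submodule.subset_span ⟨n, rfl⟩)⟩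

/-- The coordinate functional as an index. -/
noncomputable def co (hB : Blocks B) (n : ℕ) : Gam 𝕜 B :=
  ⟨({n}, fun _ => 1), 0, Or.inl ⟨by simp [hB.zero], by simp [cut], by simp [wq]⟩⟩

/-- The dual functionals. -/
noncomputable def bxs (𝕜 : Type) [RCLike 𝕜] (hB : Blocks B) (n : ℕ) : Sp 𝕜 B →ₗ[𝕜] 𝕜 :=
  (lp.evalₗ (fun _ : Gam 𝕜 B => 𝕜) ∞ (co hB n)).comp (Sp 𝕜 B).subtype

lemma bxs_apply (hB : Blocks B) (n : ℕ) (f : Sp 𝕜 B) :
    bxs 𝕜 hB n f = (f : Amb 𝕜 B) (co hB n) := rfl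

lemma bxs_bx (hB : Blocks B) (n k : ℕ) :
    bxs 𝕜 hB n (bx 𝕜 B k) = if n = k then 1 else 0 := by
  change (if k ∈ ({n} : Finset ℕ) then (1 : 𝕜) else 0) = _
  simp [eq_comm]

lemma apply_eq_sum (hB : Blocks B) (f : Sp 𝕜 B) (γ : Gam 𝕜 B) :
    (f : Amb 𝕜 B) γ = ∑ n ∈ γ.1.1, γ.1.2 n * bxs 𝕜 hB n f := by
  let Φ : Amb 𝕜 B →L[𝕜] 𝕜 := lp.evalCLM 𝕜 (fun _ : Gam 𝕜 B => 𝕜) ∞ γ -
    ∑ n ∈ γ.1.1, γ.1.2 n • lp.evalCLM 𝕜 (fun _ : Gam 𝕜 B => 𝕜) ∞ (co hB n)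
  have hΦ : ∀ g : Amb 𝕜 B, Φ g = g γ - ∑ n ∈ γ.1.1, γ.1.2 n * g (co hB n) := by
    intro g
    simp only [Φ, sub_apply, _root_.sum_apply, smul_apply, smul_eq_mul]
    rfl
  have hle : Sp 𝕜 B ≤ LinearMap.ker (Φ : Amb 𝕜 B →ₗ[𝕜] 𝕜) := by
    refine Submodule.topologicalClosure_minimal _ ?_ Φ.isClosed_ker
    rw [Submodule.span_le]
    rintro _ ⟨k, rfl⟩
    change Φ (ev 𝕜 B k) = 0
    rw [hΦ]
    have e : ∀ n, (ev 𝕜 B k) (co hB n) = if n = k then 1 else 0 := fun n => bxs_bx hB n k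
    simp only [e]
    change (if k ∈ γ.1.1 then γ.1.2 k else 0) - _ = 0
    simp
  have := hle f.2
  change Φ f = 0 at this
  rw [hΦ] at this
  exact sub_eq_zero.1 this

lemma apply_le_norm (f : Sp 𝕜 B) (γ : Gam 𝕜 B) : ‖(f : Amb 𝕜 B) γ‖ ≤ ‖f‖ :=
  lp.norm_apply_le_norm (by simp) (f : Amb 𝕜 B) γ

lemma exists_phase (a : 𝕜) : ∃ c : 𝕜, ‖c‖ ≤ 1 ∧ c * a = (‖a‖ : 𝕜) := by
  by_cases ha : a = 0
  · exact ⟨0, by simp, by simp [ha]⟩
  · have hn : (0 : ℝ) < ‖a‖ := norm_pos_iff.2 ha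
    refine ⟨(‖a‖ : 𝕜) / a, by simp [hn.ne'], by field_simp⟩

lemma bd_norm (hB : Blocks B) (f : Sp 𝕜 B) : Bd B (fun n => bxs 𝕜 hB n f) ‖f‖ := by
  refine ⟨fun l T hT hTc => ?_, fun l => ?_⟩
  · choose c hc1 hc2 using fun n => exists_phase (bxs 𝕜 hB n f)
    have hw := wq_pos l
    let γ : Gam 𝕜 B := ⟨(T, fun n => (wq l : 𝕜) * c n), l, Or.inl ⟨hT, hTc, fun n _ => by
      rw [norm_mul, RCLike.norm_ofReal, abs_of_pos hw]
      nlinarith [hc1 n]⟩⟩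
    have e := apply_le_norm f γ
    rw [apply_eq_sum hB] at e
    have e2 : ∑ n ∈ γ.1.1, γ.1.2 n * bxs 𝕜 hB n f =
        ((wq l * ∑ n ∈ T, ‖bxs 𝕜 hB n f‖ : ℝ) : 𝕜) := by
      push_cast
      rw [Finset.mul_sum]
      refine Finset.sum_congr rfl fun n _ => ?_
      exact (mul_assoc _ _ _).trans (congrArg _ (hc2 n))
    rw [e2, RCLike.norm_ofReal] at e
    exact (le_abs_self _).trans e
  · have hw := wq_pos l
    let γ : Gam 𝕜 B := ⟨(B l, fun _ => (wq l : 𝕜)), l, Or.inr ⟨rfl, fun _ _ => rfl⟩⟩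
    have e := apply_le_norm f γ
    rw [apply_eq_sum hB] at e
    change ‖∑ n ∈ B l, (wq l : 𝕜) * bxs 𝕜 hB n f‖ ≤ _ at e
    rwa [← Finset.mul_sum, norm_mul, RCLike.norm_ofReal, abs_of_pos hw] at e

lemma norm_le_of_bd (hB : Blocks B) (f : Sp 𝕜 B) {H : ℝ} (h : Bd B (fun n => bxs 𝕜 hB n f) H) :
    ‖f‖ ≤ H := by
  refine lp.norm_le_of_forall_le (f := (f : Amb 𝕜 B)) h.nonneg fun γ => ?_
  rw [apply_eq_sum hB]
  obtain ⟨l, hγ | hγ⟩ := γ.2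
  · refine le_trans ?_ (h.lat l γ.1.1 hγ.1 hγ.2.1)
    rw [Finset.mul_sum]
    refine (norm_sum_le _ _).trans (Finset.sum_le_sum fun n hn => ?_)
    rw [norm_mul]
    gcongr
    exact hγ.2.2 n hn
  · refine le_trans (le_of_eq ?_) (h.blk l)
    have : ∑ n ∈ γ.1.1, γ.1.2 n * bxs 𝕜 hB n f = (wq l : 𝕜) * ∑ n ∈ B l, bxs 𝕜 hB n f := by
      rw [Finset.mul_sum, ← hγ.1]
      exact Finset.sum_congr rfl fun n hn => by rw [hγ.2 n hn]
    rw [this, norm_mul, RCLike.norm_ofReal, abs_of_pos (wq_pos l)]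

lemma coef_le_norm (hB : Blocks B) (n : ℕ) (f : Sp 𝕜 B) : ‖bxs 𝕜 hB n f‖ ≤ ‖f‖ :=
  apply_le_norm f _

lemma norm_bx (hB : Blocks B) (n : ℕ) : ‖bx 𝕜 B n‖ = 1 := by
  refine le_antisymm (lp.norm_le_of_forall_le (f := ev 𝕜 B n) zero_le_one (ev_bound n)) ?_
  have := coef_le_norm hB n (bx 𝕜 B n)
  simpa [bxs_bx] using this

lemma eq_zero_of_coef (hB : Blocks B) (f : Sp 𝕜 B) (h : ∀ n, bxs 𝕜 hB n f = 0) : f = 0 := by
  refine norm_le_zero_iff.1 (norm_le_of_bd hB f ⟨fun l T _ _ => ?_, fun l => ?_⟩) <;> simp [h]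

/-- A complete normed space is a `p`-Banach space for every `0 < p ≤ 1`. -/
lemma isPBanach_norm {X : Type} [NormedAddCommGroup X] [NormedSpace 𝕜 X] [CompleteSpace X]
    {p : ℝ} (hp : 0 < p) (hp1 : p ≤ 1) : IsPBanach 𝕜 p (fun f : X => ‖f‖) := by
  refine ⟨norm_nonneg, fun f => norm_eq_zero.1, norm_smul, fun f g => ?_, fun u hu => ?_⟩
  · exact (Real.rpow_le_rpow (norm_nonneg _) (norm_add_le f g) hp.le).trans
      (Real.rpow_add_le_add_rpow (norm_nonneg _) (norm_nonneg _) hp.le hp1)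
  · have hc : CauchySeq u := by
      rw [Metric.cauchySeq_iff]
      intro ε hε
      obtain ⟨n₀, h⟩ := hu ε hε
      exact ⟨n₀, fun m hm n hn => by rw [dist_eq_norm]; exact h m hm n hn⟩
    obtain ⟨f, hf⟩ := cauchySeq_tendsto_of_complete hc
    refine ⟨f, fun ε hε => ?_⟩
    obtain ⟨n₀, h⟩ := Metric.tendsto_atTop.1 hf ε hε
    exact ⟨n₀, fun n hn => by rw [← dist_eq_norm]; exact h n hn⟩

lemma interpolate {X : Type} [AddCommGroup X] [Module 𝕜 X] (xs : ℕ → X →ₗ[𝕜] 𝕜)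
    (sep : ∀ f, (∀ n, xs n f = 0) → f = 0) (φ : X →ₗ[𝕜] 𝕜) (F : Finset X) :
    ∃ ψ ∈ Submodule.span 𝕜 (Set.range xs), ∀ f ∈ F, φ f = ψ f := by
  let V : Submodule 𝕜 X := Submodule.span 𝕜 (F : Set X)
  have : FiniteDimensional 𝕜 V := FiniteDimensional.span_finset 𝕜 F
  let r : (X →ₗ[𝕜] 𝕜) →ₗ[𝕜] (V →ₗ[𝕜] 𝕜) := LinearMap.domRestrict₁₂
    (LinearMap.id : (X →ₗ[𝕜] 𝕜) →ₗ[𝕜] (X →ₗ[𝕜] 𝕜)) ⊤ V ∘ₗ
      (Submodule.topEquiv : (⊤ : Submodule 𝕜 (X →ₗ[𝕜] 𝕜)) ≃ₗ[𝕜] _).symm.toLinearMap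
  have hr : ∀ ψ (v : V), r ψ v = ψ v := fun _ _ => rfl
  have htop : Submodule.span 𝕜 (r '' Set.range xs) = ⊤ := by
    refine Submodule.span_eq_top_of_ne_zero fun z hz => ?_
    by_contra hcon
    push Not at hcon
    exact hz (Subtype.ext (sep z fun n => hcon (r (xs n)) ⟨xs n, ⟨n, rfl⟩, rfl⟩))
  have hmem : r φ ∈ Submodule.map r (Submodule.span 𝕜 (Set.range xs)) := by
    rw [Submodule.map_span, htop]; trivial
  obtain ⟨ψ, hψ, e⟩ := hmem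
  refine ⟨ψ, hψ, fun f hf => ?_⟩
  have := LinearMap.congr_fun e ⟨f, Submodule.subset_span hf⟩
  exact this.symm

lemma isMarkushevich (hB : Blocks B) :
    IsMarkushevich (fun f : Sp 𝕜 B => ‖f‖) (bx 𝕜 B) (bxs 𝕜 hB) := by
  refine ⟨bxs_bx hB, ⟨1, fun n => (norm_bx hB n).le⟩,
    ⟨1, fun n f => by rw [one_mul]; exact coef_le_norm hB n f⟩, fun f ε hε => ?_,
    fun φ _ F ε hε => ?_⟩
  · have hf : (f : Amb 𝕜 B) ∈ closure
        ((Submodule.span 𝕜 (Set.range (ev 𝕜 B)) : Submodule 𝕜 (Amb 𝕜 B)) : Set (Amb 𝕜 B)) := f.2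
    obtain ⟨g, hg, hfg⟩ := Metric.mem_closure_iff.1 hf ε hε
    have hmap : Submodule.span 𝕜 (Set.range (ev 𝕜 B)) =
        Submodule.map (Sp 𝕜 B).subtype (Submodule.span 𝕜 (Set.range (bx 𝕜 B))) := by
      rw [Submodule.map_span, ← Set.range_comp]
      rfl
    rw [hmap] at hg
    obtain ⟨g', hg', rfl⟩ := hg
    refine ⟨g', hg', ?_⟩
    rw [dist_eq_norm] at hfg
    exact hfg
  · obtain ⟨ψ, hψ, h⟩ := interpolate (bxs 𝕜 hB) (eq_zero_of_coef hB) φ F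
    exact ⟨ψ, hψ, fun f hf => by rw [h f hf]; simpa using hε⟩

lemma le_leastConst {P : ℝ≥0 → Prop} {a : ℝ≥0} (h : ∀ C, P C → a ≤ C) :
    (a : ℝ≥0∞) ≤ leastConst P :=
  le_iInf₂ fun C hC => ENNReal.coe_le_coe.2 (h C hC)

theorem chebPar_le (hB : Blocks B) {k m : ℕ} (hm : m ≤ Nq k) :
    chebPar (fun f : Sp 𝕜 B => ‖f‖) (bx 𝕜 B) (bxs 𝕜 hB) m ≤ 6 * ((k + 1 : ℕ) : ℝ≥0∞) := by
  have e : (6 * ((k + 1 : ℕ) : ℝ≥0∞)) = ((6 * (k + 1) : ℝ≥0) : ℝ≥0∞) := by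
    push_cast; rfl
  rw [e]
  refine leastConst_le fun f A hA hAc => ?_
  have hpos : (0 : ℝ) < 6 * (k + 1) := by positivity
  push_cast
  rw [← div_le_iff₀' hpos]
  refine le_csInf ⟨_, 0, by simp, rfl⟩ ?_
  rintro r ⟨y, hy, rfl⟩
  rw [div_le_iff₀' hpos]
  have hfin : {n | bxs 𝕜 hB n y ≠ 0}.Finite := Set.finite_of_encard_le_coe hy
  have hS : hfin.toFinset.card ≤ A.card := by
    rw [hAc]
    have := hfin.encard_eq_coe_toFinset_card
    rw [this] at hy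
    exact_mod_cast hy
  obtain ⟨z, hz1, hz2⟩ := cheb_core hB (a := fun n => bxs 𝕜 hB n f) (bd_norm hB (f - y)) (k := k)
    A hfin.toFinset hS (hAc ▸ hm) (fun n hn => by
      have : bxs 𝕜 hB n y = 0 := by simpa using hn
      rw [map_sub, this, sub_zero])
    (fun n hn i hi => by
      rcases hA n hn i hi with h | h
      · exact h.le
      · exact h.1.le)
  refine le_trans (csInf_le ⟨0, ?_⟩ ⟨fun n => bxs 𝕜 hB n f - z n, rfl⟩) ?_
  · rintro r ⟨a, rfl⟩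
    exact norm_nonneg _
  · refine norm_le_of_bd hB _ ?_
    convert hz2 using 2 with n
    rw [map_sub, coef_sum (bxs_bx hB)]
    split_ifs with hn
    · ring
    · rw [sub_zero, hz1 n hn]

theorem lower_aux (hB : Blocks B) {k : ℕ} (hc : (B (k + 1)).card = Nq (k + 1)) :
    ∃ (f : Sp 𝕜 B) (P : Finset ℕ), P.card = (k + 2) * cut (k + 1) ∧
      IsGreedySet (bxs 𝕜 hB) f P ∧ (∀ n ∈ P, bxs 𝕜 hB n f = 1) ∧
      ∀ C : ℝ≥0, ‖∑ n ∈ P, (1 : 𝕜) • bx 𝕜 B n‖ ≤ C * ‖f‖ → ((k + 2 : ℕ) : ℝ≥0) ^ 2 ≤ C := by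
  have hN : Nq (k + 1) = 2 * ((k + 2) * cut (k + 1)) := by unfold Nq; ring
  obtain ⟨P, hP, hPc⟩ := Finset.exists_subset_card_eq
    (show (k + 2) * cut (k + 1) ≤ (B (k + 1)).card by omega)
  have hsd : (B (k + 1) \ P).card = P.card := by
    have := Finset.card_sdiff_add_card_eq_card hP
    omega
  set f : Sp 𝕜 B := ∑ n ∈ B (k + 1), (if n ∈ P then (1 : 𝕜) else -1) • bx 𝕜 B n with hf
  have coef : ∀ n, bxs 𝕜 hB n f =
      if n ∈ B (k + 1) then (if n ∈ P then (1 : 𝕜) else -1) else 0 := fun n =>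
    coef_sum (bxs_bx hB) _ _ n
  have hone : ∀ n ∈ P, bxs 𝕜 hB n f = 1 := fun n hn => by
    rw [coef, if_pos (hP hn), if_pos hn]
  refine ⟨f, P, hPc, fun n hn i _ => ?_, hone, fun C hC => ?_⟩
  · rw [hone n hn, coef i]
    split_ifs <;> simp
  · have e1 : ‖f‖ ≤ Fq k := by
      refine norm_le_of_bd hB f ?_
      simp only [coef]
      exact balanced_bd hB P hP hsd
    have e2 := (bd_norm hB (∑ n ∈ P, (1 : 𝕜) • bx 𝕜 B n)).blk (k + 1)
    have e3 : ∑ n ∈ B (k + 1), bxs 𝕜 hB n (∑ n ∈ P, (1 : 𝕜) • bx 𝕜 B n) = (P.card : 𝕜) := by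
      rw [Finset.sum_congr rfl fun n _ => coef_sum (bxs_bx (𝕜 := 𝕜) hB) P (fun _ => 1) n,
        Finset.sum_ite_mem, Finset.inter_eq_right.2 hP]
      simp
    simp only [e3, RCLike.norm_natCast, hPc] at e2
    have hF : (0 : ℝ) < Fq k := by exact_mod_cast Fq_pos k
    have e4 : wq (k + 1) * (((k + 2) * cut (k + 1) : ℕ) : ℝ) = (k + 2) ^ 2 * Fq k := by
      have := wq_mul_sq (k + 1)
      rw [Fq_succ] at this
      push_cast at this ⊢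
      linear_combination (k + 2 : ℝ) * this
    have e5 : ((k : ℝ) + 2) ^ 2 * Fq k ≤ C * Fq k := by
      rw [← e4]
      exact e2.trans (hC.trans (by gcongr))
    have e6 := le_of_mul_le_mul_right e5 hF
    rw [← NNReal.coe_le_coe]
    push_cast
    exact e6

theorem lower_bounds (hB : Blocks B) {k : ℕ} (hc : (B (k + 1)).card = Nq (k + 1)) :
    ((k + 2 : ℕ) : ℝ≥0∞) ^ 2 ≤
      gPar (fun f : Sp 𝕜 B => ‖f‖) (bx 𝕜 B) (bxs 𝕜 hB) ((k + 2) * cut (k + 1)) ∧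
    ((k + 2 : ℕ) : ℝ≥0∞) ^ 2 ≤
      lamPar (fun f : Sp 𝕜 B => ‖f‖) (bx 𝕜 B) (bxs 𝕜 hB) ((k + 2) * cut (k + 1)) := by
  obtain ⟨f, P, hPc, hP, hone, hmain⟩ := lower_aux (𝕜 := 𝕜) hB hc
  have e : ((k + 2 : ℕ) : ℝ≥0∞) ^ 2 = ((((k + 2 : ℕ) : ℝ≥0) ^ 2 : ℝ≥0) : ℝ≥0∞) := by
    push_cast; rfl
  rw [e]
  refine ⟨le_leastConst fun C hC => hmain C ?_, le_leastConst fun C hC => hmain C ?_⟩
  · have := hC f P hP hPc.le
    have e2 : proj (bx 𝕜 B) (bxs 𝕜 hB) P f = ∑ n ∈ P, (1 : 𝕜) • bx 𝕜 B n :=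
      Finset.sum_congr rfl fun n hn => by rw [hone n hn]
    rwa [e2] at this
  · have hne : P.Nonempty := by
      rw [← Finset.card_pos, hPc]
      have := cut_pos (k + 1)
      positivity
    have := hC f P P (fun _ => 1) hne (by simp) hP rfl hPc.le
    have e2 : (P.inf' hne fun n => ‖bxs 𝕜 hB n f‖) = 1 := by
      rw [Finset.inf'_congr hne rfl (g := fun _ => (1 : ℝ)) fun n hn => by rw [hone n hn, norm_one]]
      simp
    rwa [e2, one_mul] at this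

/-! ### The two families of blocks -/

/-- Starting points of the consecutive blocks. -/
def start : ℕ → ℕ
  | 0 => 0
  | l + 1 => start l + Nq (l + 1)

/-- Infinitely many full blocks. -/
def allB : ℕ → Finset ℕ
  | 0 => ∅
  | l + 1 => Ico (start l) (start (l + 1))

lemma start_mono : Monotone start :=
  monotone_nat_of_le_succ fun l => by simp [start]

lemma allB_card (l : ℕ) : (allB (l + 1)).card = Nq (l + 1) := by simp [allB, start]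

lemma allB_blocks : Blocks allB := by
  refine ⟨rfl, fun l l' h => ?_, fun l => ?_⟩
  · cases l with
    | zero => simp [allB]
    | succ l =>
      cases l' with
      | zero => simp [allB]
      | succ l' =>
        simp only [allB]
        rw [Finset.disjoint_left]
        intro n h1 h2
        rw [Finset.mem_Ico] at h1 h2
        rcases lt_or_gt_of_ne h with h | h
        · have := start_mono (show l + 1 ≤ l' by omega)
          omega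
        · have := start_mono (show l' + 1 ≤ l by omega)
          omega
  · cases l with
    | zero => simp [allB]
    | succ l => exact (allB_card l).le

/-- One full block. -/
def oneB (k : ℕ) (l : ℕ) : Finset ℕ := if l = k + 1 then range (Nq (k + 1)) else ∅

lemma oneB_blocks (k : ℕ) : Blocks (oneB k) := by
  refine ⟨by simp [oneB], fun l l' h => ?_, fun l => ?_⟩
  · unfold oneB
    split_ifs with h1 h2
    · exact absurd (h1.trans h2.symm) h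
    all_goals simp
  · unfold oneB
    split_ifs with h1
    · simp [h1]
    · simp

lemma oneB_schauder (k : ℕ) : IsSchauder (fun f : Sp 𝕜 (oneB k) => ‖f‖) (bx 𝕜 (oneB k))
    (bxs 𝕜 (oneB_blocks k)) (Nq (k + 1)) := by
  refine ⟨isMarkushevich _, fun m f => norm_le_of_bd (oneB_blocks k) _ ?_⟩
  have hN : (1 : ℝ) ≤ Nq (k + 1) := by exact_mod_cast Nq_pos _
  have h0 := norm_nonneg f
  have dom : ∀ n, ‖bxs 𝕜 (oneB_blocks k) n
      (proj (bx 𝕜 (oneB k)) (bxs 𝕜 (oneB_blocks k)) (range m) f)‖ ≤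
      ‖bxs 𝕜 (oneB_blocks k) n f‖ := by
    intro n
    rw [coef_proj (bxs_bx _)]
    split_ifs <;> simp
  refine ⟨fun l T hT hTc => ?_, fun l => ?_⟩
  · have hw := wq_pos l
    refine le_trans ?_ (((bd_norm (oneB_blocks k) f).lat l T hT hTc).trans (by nlinarith))
    gcongr with n
    exact dom n
  · have hw := wq_pos l
    have e1 := sum_norm_le_card_mul _ (oneB k l) fun n _ =>
      (dom n).trans (coef_le_norm (oneB_blocks k) n f)
    have e2 : ((oneB k l).card : ℝ) ≤ Nq (k + 1) := by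
      unfold oneB
      split_ifs <;> simp
    calc _ ≤ 1 * ((oneB k l).card * ‖f‖) := by
          gcongr
          · exact wq_le_one l
          · exact (norm_sum_le _ _).trans e1
      _ ≤ _ := by rw [one_mul]; gcongr

end Pool.Agent.Lib.MP_f9d380_an
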